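import Pool.Agent.Work.MP_8f87b2_h19.ClL1
import Pool.Agent.Work.MP_8f87b2_h11.L1Rows

/-!
# MP_8f87b2_co: rows I-L1-Cr and I-L1-Cl

`Ft.IW` : the shape of the inner words of a gadget of type L1 (reduced word and gaps of the beads). `TyL1.innw` : all inner
words of type L1. `TyL1.inner_C` : no inner word is a word of a right content link. `TyL1.inner_C'` : the same for the left
content links, with the side condition `ClI U` for `c = 2`.
-/

set_option autoImplicit false
set_option linter.unusedSimpArgs false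
set_option linter.unusedVariables false

namespace Pool.OddHC

open Finset Equiv BinaryTree Pool.Agent.Work.MP_8f87b2_co

namespace Ft

variable {k : ℕ} {R B S U : BinaryTree Unit} {i : ℕ}

/-- parts of the reduced inner word: `P` up to the top, `Q` from the top, `p` gap of the hidden bead -/
structure IB (P Q : List Bool) (p : ℕ) : Prop where
  net : P.count false + 2 ≤ P.count true
  q0 : Q ≠ []
  p2 : 2 ≤ p
  cas : (p + 1 = P.length ∧ ∃ L, P = L ++ [false, true]) ∨ p + 3 = P.length

/-- reduced word and beads of an inner word -/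
def IW (y : BinaryTree Unit) (i : ℕ) : Prop :=
  ∃ (P Q : List Bool) (p : ℕ), IB P Q p ∧
    ((i = 1 ∧ wd (rd y) = P ++ false :: Q ∧ (ps y).length = 3 ∧ ∀ z, z ∈ ps y ↔ z = p ∨ z = P.length) ∨
      (i ≠ 1 ∧ ∃ j, j ≤ 2 ∧ wd (rd y) = P ++ true :: false :: false :: Q ∧ (ps y).length = 2 ∧
        ∀ z, z ∈ ps y ↔ z = p ∨ z = P.length + j))

theorem map_not_ne {l : List Bool} (h : l ≠ []) : l.map not ≠ [] := by
  intro e
  exact h (List.map_eq_nil_iff.1 e)

/-- **the inner words** -/
theorem innW (hr : 0 < ln R) (hs : 0 < ln S) (hB : B = .nil ∨ 0 < ln B) {v : ℕ} (hv : ps R = [v])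
    (hc : (v + 1 = ln R ∧ ∃ L, wd (rd R) = L ++ [true, false]) ∨ v + 3 = ln R) (hH : 2 ≤ Tsq.ht (rd R))
    (hFM : ∀ a b, H1.FM (rd R) a b → a.length + 3 ≤ v)
    {x : X k} (hi : i ∈ [1, 3, 6, 8]) (hx : x.1 = H1.W R .nil B S i) : IW (TT x).1 i := by
  obtain ⟨_, t1, t3, _, t6, t8, _⟩ := rd_W hr hs hB
  have hi20 : i < 20 := by
    have : ∀ j ∈ [1, 3, 6, 8], j < 20 := by decide
    exact this i hi
  obtain ⟨l1, l2⟩ := LN_PP hr hs hB hi20
  rw [← hx] at l1 l2
  rw [hv] at l2
  obtain ⟨a, b, hF⟩ := FM_ex (rd_ne hr)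
  have hle := hFM _ _ hF
  have hlen := FM_len hF
  obtain ⟨-, -, f3⟩ := FM.facts hF
  have hN : H1.FM (rd R △ .nil) (true :: a) (b ++ false :: wd .nil) :=
    hF.node (Z := .nil) (by simp [Tsq.ht])
  have hvR : v < ln R := by
    rcases hc with ⟨h1, _⟩ | h1 <;> omega
  have ha0 : a ≠ [] := by
    rintro rfl
    have := hF.top
    simp at this
    omega
  have hIB : IB (b.map not) (a.map not) (v - (a.length + 1)) := by
    refine ⟨?_, map_not_ne ha0, by omega, ?_⟩
    · rw [cnt_not_t, cnt_not_f]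
      omega
    · rw [List.length_map]
      rcases hc with ⟨h1, L, hL⟩ | h1
      · left
        refine ⟨by omega, ?_⟩
        rw [hF.eq] at hL
        have hb3 : 3 ≤ b.length := by omega
        have e1 := congrArg List.reverse hL
        simp only [List.reverse_append, List.reverse_cons, List.append_assoc, List.reverse_nil, List.nil_append,
          List.cons_append, List.singleton_append] at e1
        have e2 : ∃ M, b.reverse = false :: true :: M := by
          rcases hbr : b.reverse with _ | ⟨c1, _ | ⟨c2, M⟩⟩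
          · have := congrArg List.length hbr
            rw [List.length_reverse] at this
            simp only [List.length_nil] at this
            omega
          · have := congrArg List.length hbr
            rw [List.length_reverse] at this
            simp only [List.length_nil, List.length_cons] at this
            omega
          · rw [hbr] at e1
            simp only [List.cons_append, List.cons.injEq] at e1
            obtain ⟨rfl, rfl, _⟩ := e1
            exact ⟨M, rfl⟩
        obtain ⟨M, hM⟩ := e2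
        have e3 : b = M.reverse ++ [true, false] := by
          have := congrArg List.reverse hM
          rw [List.reverse_reverse] at this
          rw [this]
          simp
        refine ⟨M.reverse.map not, ?_⟩
        rw [e3]
        simp
      · right
        omega
  refine ⟨b.map not, a.map not, v - (a.length + 1), hIB, ?_⟩
  have hbl : (b.map not).length = b.length := List.length_map ..
  rw [hbl]
  have two : ∀ j q, j ≤ 2 → rd x.1 = rd R △ .nil → ln x.1 = ln R + 2 → (ps x.1).length = 2 →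
      (∀ z, z ∈ ps x.1 ↔ z = v + 1 ∨ z = q) → (ln R + 1 + j = q ∨ (j = 2 ∧ q = 0)) → q ≠ ln R + 3 →
      ∃ j, j ≤ 2 ∧ wd (rd (TT x).1) = b.map not ++ true :: false :: false :: a.map not ∧ (ps (TT x).1).length = 2 ∧
        ∀ z, z ∈ ps (TT x).1 ↔ z = v - (a.length + 1) ∨ z = b.length + j := by
    intro j q hj e1 e2 e3 e4 e5 e6
    rw [← e1] at hN
    obtain ⟨h1, h2, h3, h4⟩ := T_all x hN
    rw [e2] at h4
    rw [List.length_cons] at h4
    refine ⟨j, hj, ?_, by rw [h3, e3], ?_⟩
    · rw [h1]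
      simp [wd]
    · intro z
      rw [h4, e4]
      constructor
      · rintro ⟨h5, h6⟩
        rcases Nat.lt_or_ge (z + (a.length + 1 + 1)) (ln R + 2 + 1) with h7 | h7
        · rw [Nat.mod_eq_of_lt h7] at h6
          omega
        · rw [Nat.mod_eq_sub_mod h7, Nat.mod_eq_of_lt (by omega)] at h6
          omega
      · rintro (h5 | h5)
        · subst h5
          refine ⟨by omega, ?_⟩
          rw [Nat.mod_eq_of_lt (by omega)]
          omega
        · subst h5
          refine ⟨by omega, ?_⟩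
          rcases Nat.lt_or_ge (b.length + j + (a.length + 1 + 1)) (ln R + 2 + 1) with h7 | h7
          · rw [Nat.mod_eq_of_lt h7]
            omega
          · rw [Nat.mod_eq_sub_mod h7, Nat.mod_eq_of_lt (by omega)]
            omega
  simp only [List.mem_cons, List.not_mem_nil, or_false] at hi
  rcases hi with rfl | rfl | rfl | rfl
  · left
    have e3 : rd x.1 = rd R := by rw [hx, t1]
    rw [← e3] at hF
    obtain ⟨h1, h2, h3, h4⟩ := T_all x hF
    have e2 : ln x.1 = ln R := l1
    have e4 : ps x.1 = [v, ln R, ln R] := l2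
    rw [e2] at h4
    refine ⟨rfl, h1, by rw [h3, e4]; rfl, ?_⟩
    intro z
    rw [h4, e4]
    simp only [List.mem_cons, List.not_mem_nil, or_false, or_self]
    constructor
    · rintro ⟨h5, h6⟩
      rcases Nat.lt_or_ge (z + (a.length + 1)) (ln R + 1) with h7 | h7
      · rw [Nat.mod_eq_of_lt h7] at h6
        omega
      · rw [Nat.mod_eq_sub_mod h7, Nat.mod_eq_of_lt (by omega)] at h6
        omega
    · rintro (h5 | h5)
      · subst h5
        refine ⟨by omega, ?_⟩
        rw [Nat.mod_eq_of_lt (by omega)]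
        omega
      · subst h5
        refine ⟨by omega, ?_⟩
        rw [Nat.mod_eq_of_lt (by omega)]
        omega
  · right
    have l2' : ps x.1 = [v + 1, ln R + 1] := l2
    refine ⟨by norm_num, two 0 (ln R + 1) (by norm_num) (by rw [hx, t3]) l1 (by rw [l2']; rfl) (fun z => by
      rw [l2']; simp) (Or.inl rfl) (by omega)⟩
  · right
    have l2' : ps x.1 = [v + 1, ln R + 2] := l2
    refine ⟨by norm_num, two 1 (ln R + 2) (by norm_num) (by rw [hx, t6]) l1 (by rw [l2']; rfl) (fun z => by
      rw [l2']; simp) (Or.inl rfl) (by omega)⟩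
  · right
    have l2' : ps x.1 = [0, v + 1] := l2
    refine ⟨by norm_num, two 2 0 (by norm_num) (by rw [hx, t8]) l1 (by rw [l2']; rfl) (fun z => by
      rw [l2']; simp only [List.mem_cons, List.not_mem_nil, or_false]; exact or_comm) (Or.inr ⟨rfl, rfl⟩) (by omega)⟩

open J (l1)

/-! ### Conditions on the inside of the host -/

/-- two beads at the first two of the letters `U U D` -/
def Stp (V : BinaryTree Unit) : Prop :=
  ∃ L M : List Bool, wd (rd V) = L ++ true :: true :: false :: M ∧ L.length ∈ ps V ∧ L.length + 1 ∈ ps V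

/-- two beads are in one gap or in neighbouring gaps -/
def Near (V : BinaryTree Unit) : Prop :=
  (ps V).length = 2 → ∀ p q, p ∈ ps V → q ∈ ps V → p < q → q = p + 1

/-- **the side condition of a left content link with `c = 2`, host `(())(U)`** -/
structure ClI (U : BinaryTree Unit) : Prop where
  near : Near U
  stp : (ps U).length = 2 → ¬ Stp U
  stm : (ps U).length = 2 → ¬ Stp (Tsq.mir U)
  tip : (ps U).length = 2 → (∀ p ∈ ps U, p + 3 = ln U ∨ p = ln U) → ∀ p ∈ ps U, p = ln U
  one : ∀ p, ps U = [p] → p + 3 ≠ ln U ∧ p + 5 ≠ ln U ∧ (p + 4 = ln U → ∃ L, wd (rd U) = L ++ [true, false])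

theorem mem_mir {z : ℕ} : z ∈ ps (Tsq.mir U) ↔ z ≤ ln U ∧ ln U - z ∈ ps U := by
  rw [ps_mir, List.mem_map]
  constructor
  · rintro ⟨x, hx, rfl⟩
    rw [List.mem_reverse] at hx
    have := ps_le U x hx
    refine ⟨by omega, ?_⟩
    rwa [show ln U - (ln U - x) = x by omega]
  · rintro ⟨h1, h2⟩
    exact ⟨ln U - z, List.mem_reverse.2 h2, by omega⟩

theorem len_mir : (ps (Tsq.mir U)).length = (ps U).length := by
  rw [ps_mir, List.length_map, List.length_reverse]

theorem Near.mir (h : Near U) : Near (Tsq.mir U) := by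
  intro h1 p q hp hq hpq
  rw [len_mir] at h1
  rw [mem_mir] at hp hq
  have := h h1 _ _ hq.2 hp.2 (by omega)
  omega

theorem hostR_wd : wd (rd (l1 △ (U △ .nil))) = true :: false :: true :: (wd (rd U) ++ [false]) ∨ U = .nil := by
  by_cases hU : U = .nil
  · exact Or.inr hU
  · left
    rw [rd_node (by simp), rd_node hU]
    rfl

theorem hostR_ps (hU : 0 < ln U) : ps (l1 △ (U △ .nil)) = (ps U).map (· + 3) := by
  rw [ps_node' (by simp), ps_node hU, ps_nil]
  have h1 : pu l1 = [] := rfl
  have h2 : ln l1 = 0 := rfl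
  rw [h1, h2]
  simp only [List.map_nil, List.nil_append, List.append_nil, List.map_map]
  rfl

theorem hostM_wd (hU : U ≠ .nil) : wd (rd (U △ (l1 △ .nil))) = true :: (wd (rd U) ++ [false, true, false]) := by
  rw [rd_node hU, rd_node (by simp)]
  rfl

theorem hostM_ps (hU : 0 < ln U) : ps (U △ (l1 △ .nil)) = (ps U).map (· + 1) := by
  have h1 : ps (l1 △ .nil) = [] := rfl
  rw [ps_node hU, h1]
  simp

/-- (a) the host `(())(U)` -/
theorem IW.hostR {y : BinaryTree Unit} (h : IW y i) (hi : i ≠ 1) (hU : 0 < ln U) (e : y = l1 △ (U △ .nil))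
    (hn : Near U) (hs : (ps U).length = 2 → ¬ Stp U) : False := by
  obtain ⟨P, Q, p, hb, ⟨h1, _⟩ | ⟨_, j, hj, h2, h3, h4⟩⟩ := h
  · exact hi h1
  have hU0 : U ≠ .nil := by rintro rfl; exact absurd hU (by simp [ln_nil])
  have hw := (hostR_wd (U := U)).resolve_right hU0
  rw [← e, h2] at hw
  have hp := hostR_ps hU
  rw [← e] at hp
  rw [hp] at h3 h4
  rw [List.length_map] at h3
  have h5 : ∀ z, z + 3 = p ∨ z + 3 = P.length + j → z ∈ ps U := by
    intro z hz
    have := (h4 (z + 3)).2 hz
    rw [List.mem_map] at this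
    obtain ⟨x, hx, e2⟩ := this
    have e3 : x = z := by
      have e4 : x + 3 = z + 3 := e2
      omega
    exact e3 ▸ hx
  have h6 : ∀ z, (z = p ∨ z = P.length + j) → 3 ≤ z := by
    intro z hz
    have := (h4 z).2 hz
    rw [List.mem_map] at this
    obtain ⟨x, _, e2⟩ := this
    have e4 : x + 3 = z := e2
    omega
  have hp3 := h6 p (Or.inl rfl)
  have hpl : p < P.length := by
    rcases hb.cas with ⟨h7, _⟩ | h7 <;> omega
  have h7 := hn h3 (p - 3) (P.length + j - 3) (h5 _ (Or.inl (by omega))) (h5 _ (Or.inr (by omega))) (by omega)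
  rcases hb.cas with ⟨h8, L, hL⟩ | h8
  · have hLl : P.length = L.length + 2 := by rw [hL]; simp
    obtain rfl : j = 0 := by omega
    rw [hL] at hw
    obtain ⟨c, L', hL'⟩ : ∃ (c : List Bool) (L' : List Bool), c.length = 3 ∧ L ++ [false] = c ++ L' :=
      ⟨(L ++ [false]).take 3, (L ++ [false]).drop 3, by
        rw [List.length_take, List.length_append, List.length_singleton]; omega,
        (List.take_append_drop _ _).symm⟩
    obtain ⟨hc3, hLL⟩ := hL'
    obtain ⟨q, Q', hQ⟩ : ∃ (Q' : List Bool) (q : Bool), Q = Q' ++ [q] :=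
      ⟨_, _, (List.dropLast_append_getLast hb.q0).symm⟩
    have hw2 : c ++ (L' ++ true :: true :: false :: false :: q) ++ [Q'] =
        [true, false, true] ++ wd (rd U) ++ [false] := by
      have e5 : L ++ [false, true] ++ true :: false :: false :: Q =
          (L ++ [false]) ++ (true :: true :: false :: false :: (q ++ [Q'])) := by
        rw [hQ]
        simp
      rw [e5, hLL] at hw
      rw [show ([true, false, true] : List Bool) ++ wd (rd U) ++ [false] =
        true :: false :: true :: (wd (rd U) ++ [false]) by simp, ← hw]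
      simp
    have hw3 := (List.append_inj' hw2 rfl).1
    have hw4 := (List.append_inj hw3 (by rw [hc3]; rfl)).2
    apply hs h3
    have hl : L'.length = p - 3 := by
      have := congrArg List.length hLL
      rw [List.length_append, List.length_append, List.length_singleton, hc3] at this
      omega
    refine ⟨L', false :: q, by rw [← hw4], ?_, ?_⟩
    · rw [hl]; exact h5 _ (Or.inl (by omega))
    · rw [hl]; exact h5 _ (Or.inr (by omega))
  · omega

/-- (b) the mirrored host `(V)(())` -/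
theorem IW.hostM {y V : BinaryTree Unit} (h : IW y i) (hi : i ≠ 1) (hU : 0 < ln V) (e : y = V △ (l1 △ .nil))
    (hn : Near V) (hs : (ps V).length = 2 → ¬ Stp V) : False := by
  obtain ⟨P, Q, p, hb, ⟨h1, _⟩ | ⟨_, j, hj, h2, h3, h4⟩⟩ := h
  · exact hi h1
  have hU0 : V ≠ .nil := by rintro rfl; exact absurd hU (by simp [ln_nil])
  have hw := hostM_wd hU0
  rw [← e, h2] at hw
  have hp := hostM_ps hU
  rw [← e] at hp
  rw [hp] at h3 h4
  rw [List.length_map] at h3
  have h5 : ∀ z, z + 1 = p ∨ z + 1 = P.length + j → z ∈ ps V := by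
    intro z hz
    have := (h4 (z + 1)).2 hz
    rw [List.mem_map] at this
    obtain ⟨x, hx, e2⟩ := this
    have e3 : x = z := by
      have e4 : x + 1 = z + 1 := e2
      omega
    exact e3 ▸ hx
  have hpl : p < P.length := by
    rcases hb.cas with ⟨h7, _⟩ | h7 <;> omega
  have hp2 := hb.p2
  have h7 := hn h3 (p - 1) (P.length + j - 1) (h5 _ (Or.inl (by omega))) (h5 _ (Or.inr (by omega))) (by omega)
  rcases hb.cas with ⟨h8, L, hL⟩ | h8
  · have hLl : P.length = L.length + 2 := by rw [hL]; simp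
    obtain rfl : j = 0 := by omega
    rw [hL] at hw
    obtain ⟨c, L', hc1, hLL⟩ : ∃ (c : List Bool) (L' : List Bool), c.length = 1 ∧ L ++ [false] = c ++ L' :=
      ⟨(L ++ [false]).take 1, (L ++ [false]).drop 1, by
        rw [List.length_take, List.length_append, List.length_singleton]; omega,
        (List.take_append_drop _ _).symm⟩
    have e5 : L ++ [false, true] ++ true :: false :: false :: Q =
        (L ++ [false]) ++ (true :: true :: false :: false :: Q) := by simp
    rw [e5, hLL] at hw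
    -- the last three letters
    rcases Q with _ | ⟨q1, _ | ⟨q2, Q⟩⟩
    · exact hb.q0 rfl
    · exfalso
      have h9 := congrArg List.reverse hw
      simp at h9
    · obtain ⟨M, hM⟩ : ∃ M : List Bool, false :: q1 :: q2 :: Q = M ++ (false :: q1 :: q2 :: Q).drop (Q.length) ∧
          ((false :: q1 :: q2 :: Q).drop (Q.length)).length = 3 :=
        ⟨(false :: q1 :: q2 :: Q).take Q.length, (List.take_append_drop _ _).symm, by
          rw [List.length_drop]; simp; omega⟩
      obtain ⟨hM1, hM2⟩ := hM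
      have hw2 : c ++ (L' ++ true :: true :: false :: M) ++ (false :: q1 :: q2 :: Q).drop (Q.length) =
          [true] ++ wd (rd V) ++ [false, true, false] := by
        rw [show ([true] : List Bool) ++ wd (rd V) ++ [false, true, false] =
          true :: (wd (rd V) ++ [false, true, false]) by simp, ← hw]
        conv_rhs => rw [hM1]
        simp
      have hw3 := (List.append_inj' hw2 (by rw [hM2]; rfl)).1
      have hw4 := (List.append_inj hw3 (by rw [hc1]; rfl)).2
      apply hs h3
      have hl : L'.length = p - 1 := by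
        have := congrArg List.length hLL
        rw [List.length_append, List.length_append, List.length_singleton, hc1] at this
        omega
      refine ⟨L', M, by rw [← hw4], ?_, ?_⟩
      · rw [hl]; exact h5 _ (Or.inl (by omega))
      · rw [hl]; exact h5 _ (Or.inr (by omega))
  · omega

/-- (c) the new word `U()(())` -/
theorem IW.newR {y : BinaryTree Unit} (h : IW y i) (e : y = app U (.nil △ (l1 △ .nil))) : False := by
  have hw : wd (rd y) = wd (rd U) ++ [true, false] := by
    rw [e, rd_app, wd_app, rd_leaf, rd_node (by simp)]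
    rfl
  have hp : ln U ∈ ps y := by
    rw [e, ps_app, ps_leaf]
    have h1 : ps (l1 △ .nil) = [] := rfl
    rw [h1]
    simp
  have hl : (wd (rd U)).length = ln U := wd_rd U
  obtain ⟨P, Q, p, hb, ⟨-, h2, h3, h4⟩ | ⟨-, j, hj, h2, h3, h4⟩⟩ := h
  · rw [h2] at hw
    have h5 := congrArg List.length hw
    simp only [List.length_append, List.length_cons, List.length_nil] at h5
    have hpl : p < P.length := by
      rcases hb.cas with ⟨h7, _⟩ | h7 <;> omega
    rcases Q with _ | ⟨q1, _ | ⟨q2, Q⟩⟩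
    · exact hb.q0 rfl
    · have h6 := (List.append_inj' hw rfl).2
      simp at h6
    · simp only [List.length_cons] at h5
      rcases (h4 _).1 hp with h6 | h6 <;> omega
  · rw [h2] at hw
    have h5 := congrArg List.length hw
    simp only [List.length_append, List.length_cons, List.length_nil] at h5
    have hpl : p < P.length := by
      rcases hb.cas with ⟨h7, _⟩ | h7 <;> omega
    rcases Q with _ | ⟨q1, _ | ⟨q2, Q⟩⟩
    · exact hb.q0 rfl
    · have e5 : P ++ true :: false :: false :: [q1] = (P ++ [true, false]) ++ [false, q1] := by simp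
      rw [e5] at hw
      have h6 := (List.append_inj' hw rfl).2
      simp at h6
    · simp only [List.length_cons] at h5
      rcases (h4 _).1 hp with h6 | h6 <;> omega

/-- (d) the mirrored new word `(())()V` -/
theorem IW.newM {y V : BinaryTree Unit} (h : IW y i) (e : y = l1 △ (.nil △ V))
    (ht : (ps V).length = 2 → (∀ z ∈ ps V, z = 0 ∨ z = 3) → 3 ∉ ps V)
    (ho : ∀ z, ps V = [z] → z ≠ 3 ∧ z ≠ 5 ∧ (z = 4 → ∀ M, wd (rd V) ≠ true :: true :: M)) : False := by
  have hw : wd (rd y) = true :: false :: wd (rd V) := by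
    rw [e, rd_node (by simp), rd_leaf]
    rfl
  have hp : ps y = 2 :: (ps V).map (· + 2) := by
    rw [e, ps_node' (by simp), ps_leaf]
    have h1 : pu l1 = [] := rfl
    have h2 : ln l1 = 0 := rfl
    rw [h1, h2]
    simp
  have two : (2 : ℕ) ∈ ps y := by rw [hp]; simp
  -- the form of `P`
  have key : ∀ P Q' : List Bool, ∀ p j : ℕ, P.count false + 2 ≤ P.count true → 2 ≤ p →
      (p + 1 = P.length ∨ p + 3 = P.length) → (2 = p ∨ 2 = P.length + j) → P ++ Q' = true :: false :: wd (rd V) →
      p = 2 ∧ P.length = 5 ∧ wd (rd V) = true :: true :: true :: Q' := by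
    intro P Q' p j h1 h2 h3 h4 h5
    rcases P with _ | ⟨a1, _ | ⟨a2, P⟩⟩
    · simp at h1
    · simp at h3
      omega
    · simp only [List.cons_append, List.cons.injEq] at h5
      obtain ⟨rfl, rfl, h5⟩ := h5
      simp only [List.length_cons] at h3 h4 ⊢
      have hp2 : p = 2 := by omega
      subst hp2
      rw [List.count_cons, List.count_cons, List.count_cons, List.count_cons] at h1
      simp at h1
      rcases P with _ | ⟨b1, _ | ⟨b2, _ | ⟨b3, _ | ⟨b4, P⟩⟩⟩⟩
      · simp at h1
      · cases b1 <;> simp at h1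
      · simp at h3
      · cases b1 <;> cases b2 <;> cases b3 <;> simp at h1
        exact ⟨rfl, rfl, h5.symm⟩
      · simp at h3
  obtain ⟨P, Q, p, hb, ⟨-, h2, h3, h4⟩ | ⟨-, j, hj, h2, h3, h4⟩⟩ := h
  · obtain ⟨rfl, h6, h7⟩ := key P (false :: Q) p 0 hb.net hb.p2 (hb.cas.imp (fun x => x.1) id)
      (by simpa using (h4 2).1 two) (by rw [← h2, hw])
    rw [hp] at h3 h4
    simp only [List.length_cons, List.length_map] at h3
    have h8 : ∀ z, z ∈ ps V → z = 0 ∨ z = 3 := by
      intro z hz
      have := (h4 (z + 2)).1 (List.mem_cons_of_mem _ (List.mem_map.2 ⟨z, hz, rfl⟩))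
      omega
    have h9 : 3 ∈ ps V := by
      have := (h4 5).2 (Or.inr h6.symm)
      rw [List.mem_cons, List.mem_map] at this
      rcases this with h | ⟨x, hx, h10⟩
      · omega
      · have h11 : x + 2 = 5 := h10
        have h12 : x = 3 := by omega
        exact h12 ▸ hx
    exact ht (by omega) h8 h9
  · obtain ⟨rfl, h6, h7⟩ := key P (true :: false :: false :: Q) p j hb.net hb.p2 (hb.cas.imp (fun x => x.1) id)
      ((h4 2).1 two) (by rw [← h2, hw])
    rw [hp] at h3 h4
    simp only [List.length_cons, List.length_map] at h3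
    obtain ⟨z, hz⟩ := List.length_eq_one_iff.1 (show (ps V).length = 1 by omega)
    have h9 : z = 3 + j := by
      have := (h4 (5 + j)).2 (Or.inr (by omega))
      rw [List.mem_cons, List.mem_map, hz] at this
      rcases this with h | ⟨x, hx, h10⟩
      · omega
      · have h11 : x + 2 = 5 + j := h10
        rw [List.mem_singleton] at hx
        omega
    obtain ⟨a1, a2, a3⟩ := ho z hz
    have : j = 1 := by omega
    exact a3 (by omega) _ h7

/-! ### The side condition for the mirror image -/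

theorem ClI.tipM (h : ClI U) : (ps (Tsq.mir U)).length = 2 → (∀ z ∈ ps (Tsq.mir U), z = 0 ∨ z = 3) →
    3 ∉ ps (Tsq.mir U) := by
  intro h1 h2 h3
  rw [len_mir] at h1
  have h4 : ∀ p ∈ ps U, p + 3 = ln U ∨ p = ln U := by
    intro p hp
    have hle := ps_le U p hp
    have := h2 (ln U - p) (mem_mir.2 ⟨by omega, by rwa [show ln U - (ln U - p) = p by omega]⟩)
    omega
  obtain ⟨h5, h6⟩ := mem_mir.1 h3
  have := h.tip h1 h4 _ h6
  omega

theorem ClI.oneM (h : ClI U) : ∀ z, ps (Tsq.mir U) = [z] →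
    z ≠ 3 ∧ z ≠ 5 ∧ (z = 4 → ∀ M, wd (rd (Tsq.mir U)) ≠ true :: true :: M) := by
  intro z hz
  have hl : (ps U).length = 1 := by rw [← len_mir, hz]; rfl
  obtain ⟨p, hp⟩ := List.length_eq_one_iff.1 hl
  have hle := ps_le U p (by rw [hp]; simp)
  have hz2 : z = ln U - p := by
    rw [ps_mir, hp] at hz
    simpa using hz.symm
  obtain ⟨a1, a2, a3⟩ := h.one p hp
  refine ⟨by omega, by omega, fun h4 M hM => ?_⟩
  obtain ⟨L, hL⟩ := a3 (by omega)
  rw [rd_mir, wd_mir, hL] at hM
  simp at hM

end Ft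

open L1 L1C

variable {k : ℕ} {F F' : Set (Cyc k)} {g g' : DG k}

theorem L1C.wd_lastTF {R : BinaryTree Unit} (h : ∃ L, comps R = L ++ [Ft.l2]) :
    ∃ L, wd (Ft.rd R) = L ++ [true, false] := by
  obtain ⟨L, hL⟩ := h
  have h1 : R = app (ofl L) (Ft.l2 △ .nil) := by
    apply J.cs_inj
    rw [← J.comps_cs, hL, J.cs_app, cs_ofl]
    rfl
  refine ⟨wd (Ft.rd (ofl L)), ?_⟩
  rw [h1, Ft.rd_app, wd_app]
  rfl

/-- the inner words of the tree `R` -/
theorem LD_innW {R : BinaryTree Unit} (h : Ft.LD R) {x : X k} {i : ℕ} (hi : i ∈ [1, 3, 6, 8])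
    (hx : x.1 = H1.W R .nil (Tsq.sq R).2 (Tsq.sq R).1 i) : Ft.IW (TT x).1 i := by
  rcases h with h | ⟨h0, h⟩
  · obtain ⟨hr, hs, hb⟩ := h.toLT.pos
    obtain ⟨v, hv, pR⟩ := h.pR
    refine Ft.innW hr hs (Or.inr hb) pR (Or.inl ⟨hv, L1C.wd_lastTF h.lastR⟩) h.hR ?_ hi hx
    intro a b hF
    have := h.hFM _ _ hF
    omega
  · have h6 := h.s6
    have hsum := h.sum
    obtain ⟨v, hv, pR⟩ := h.pR
    refine Ft.innW (B := (Tsq.sq R).2) (S := (Tsq.sq R).1) (by omega) (by omega) (Or.inl h0) pR (Or.inr hv) h.hR ?_ hi hx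
    intro a b hF
    have := h.hFM _ _ hF
    omega

namespace L1C

variable {n : ℕ} {R B S U : BinaryTree Unit}

theorem HD.inn3 (h : HD n R B S) {i : ℕ} (hi : i ∈ [1, 3, 6, 8]) : fc 3 (OddHC.cont (H1.W R .nil B S i)) = 1 := by
  have hn := h.hn
  have r3 := h.r3
  have hR := h.hR
  have z0 : fc 3 (OddHC.cont (BinaryTree.nil : BinaryTree Unit)) = 0 := rfl
  have z1 : fc 3 (raise (OddHC.cont (BinaryTree.nil : BinaryTree Unit))) = 0 := rfl
  simp only [List.mem_cons, List.not_mem_nil, or_false] at hi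
  rcases hi with rfl | rfl | rfl | rfl
  · have e : OddHC.cont (H1.W R .nil B S 1) = OddHC.cont R + (raise (OddHC.cont .nil) + (raise (OddHC.cont .nil) +
        OddHC.cont .nil)) := by
      change OddHC.cont (app R (.nil △ (.nil △ .nil))) = _
      rw [cont_app, cont_node, cont_node]
    rw [e, fc_add, fc_add, fc_add, z0, z1, r3]
  · have e : OddHC.cont (H1.W R .nil B S 3) = raise (OddHC.cont (app R (.nil △ .nil))) + OddHC.cont .nil := by
      change OddHC.cont ((app R (.nil △ .nil)) △ .nil) = _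
      rw [cont_node]
    have h1 : 3 ≤ OddHC.ht (app R (.nil △ .nil)) := by
      rw [OddHC.ht_app]
      omega
    rw [e, fc_add, fc_raise h1 (by omega), cont_app, cont_node, fc_add, fc_add, z0, z1, r3]
  · have e : OddHC.cont (H1.W R .nil B S 6) = raise (OddHC.cont R) + (raise (OddHC.cont .nil) + OddHC.cont .nil) := by
      change OddHC.cont (R △ (.nil △ .nil)) = _
      rw [cont_node, cont_node]
    rw [e, fc_add, fc_add, z1, z0, fc_raise (by omega) (by omega), r3]
  · have e : OddHC.cont (H1.W R .nil B S 8) = raise (OddHC.cont .nil) + (raise (OddHC.cont R) + OddHC.cont .nil) := by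
      change OddHC.cont (.nil △ (R △ .nil)) = _
      rw [cont_node, cont_node]
    rw [e, fc_add, fc_add, z1, z0, fc_raise (A := R) (by omega) (by omega), r3]

theorem HD.ht1 (h : HD n R B S) : OddHC.ht (H1.W R .nil B S 1) = n + 2 := by
  change OddHC.ht (app R (.nil △ (.nil △ .nil))) = _
  rw [OddHC.ht_app, h.hR]
  simp only [OddHC.ht]
  omega

theorem two3 {c : ℕ} (hc : 3 ≤ c) (hU : 3 ≤ OddHC.ht U) {w : BinaryTree Unit}
    (hw : w = U △ H1.ch c ∨ w = app (H1.ch c) (U △ .nil) ∨ w = app U (H1.ch c △ .nil) ∨ w = H1.ch c △ U ∨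
      w = app (H1.ch c) (.nil △ U) ∨ w = app U (.nil △ H1.ch c)) : 2 ≤ fc 3 (OddHC.cont w) := by
  have u3 : 1 ≤ fc 3 (OddHC.cont U) := fc_pos hU (by omega)
  have r3 : fc 3 (raise (OddHC.cont U)) = fc 3 (OddHC.cont U) := fc_raise hU (by omega)
  have n0 : fc 3 (raise (OddHC.cont (BinaryTree.nil : BinaryTree Unit))) = 0 := rfl
  have z0 : fc 3 (OddHC.cont (BinaryTree.nil : BinaryTree Unit)) = 0 := rfl
  have cc3 : fc 3 (OddHC.cont (H1.ch c)) = 1 := by rw [fc_ch (by omega), if_pos hc]
  have cc4 : fc 3 (OddHC.cont (H1.ch (c + 1))) = 1 := by rw [fc_ch (by omega), if_pos (by omega)]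
  rcases hw with rfl | rfl | rfl | rfl | rfl | rfl
  · rw [cont_node, fc_add, r3, cc3]
    omega
  · rw [cont_app, cont_node, fc_add, fc_add, r3, cc3, z0]
    omega
  · have e2 : OddHC.cont (app U (H1.ch c △ .nil)) = OddHC.cont U + OddHC.cont (H1.ch (c + 1)) := cont_app _ _
    rw [e2, fc_add, cc4]
    omega
  · have e3 : OddHC.cont (H1.ch c △ U) = OddHC.cont (H1.ch (c + 1)) + OddHC.cont U := by
      change OddHC.cont (app (H1.ch (c + 1)) U) = _
      exact cont_app _ _
    rw [e3, fc_add, cc4]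
    omega
  · rw [cont_app, cont_node, fc_add, fc_add, cc3]
    omega
  · rw [cont_app, cont_node, fc_add, fc_add, cc3]
    omega

end L1C

open L1C L1 J

theorem contTT (x : X k) : OddHC.cont (TT x).1 = OddHC.cont x.1 := by
  have h : cyc (TT x) = cyc x := cyc_eq.2 (Equiv.Perm.SameCycle.symm ⟨1, rfl⟩)
  have h2 := congrArg contc h
  exact h2

theorem htc_c0 {n : ℕ} {Φ : ZMod (2 * n + 1) → ℕ} (hn : 1 ≤ n) {w : X k} {G : ZMod (2 * n + 1) → ℕ}
    (h : Ov n G w.1) : htc (cyc w) = n + 2 := sup_Ov hn h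

/-- **the inner words of type L1** -/
theorem TyL1.innw (hk : 9 ≤ k) (h : TyL1 F g) : ∀ a ∈ g.arcs, ∀ w ∈ innA a, ∃ (i : ℕ) (v : BinaryTree Unit),
    Ft.IW v i ∧ (w.1 = v ∨ w.1 = Tsq.mir v) ∧ fc 3 (OddHC.cont v) = 1 ∧ (i = 1 → ∃ c ∈ F, OddHC.ht v = htc c) := by
  rcases h with ⟨n, Φ, w0, hb, hr, rfl, rfl⟩ | ⟨n, Φ, w0, hb, hr, rfl, rfl⟩
  · have hkk := hb.hk
    have hd : Ft.LD (RH n Φ) := Ft.LD_right hb.hn Φ hb.one (fun h1 => by omega) hr
    have hD := HD_RH hb.hn Φ hb.one
    have key : ∀ i ∈ [1, 3, 6, 8], ∃ (i' : ℕ) (v : BinaryTree Unit), Ft.IW v i' ∧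
        ((TT (xw n Φ w0 i)).1 = v ∨ (TT (xw n Φ w0 i)).1 = Tsq.mir v) ∧ fc 3 (OddHC.cont v) = 1 ∧
        (i' = 1 → ∃ c ∈ ({cyc (xw n Φ w0 0), cyc (xw n Φ w0 4)} : Set (Cyc k)), OddHC.ht v = htc c) := by
      intro i hi
      have hlt : ∀ i ∈ [1, 3, 6, 8], i < 20 := by decide
      have hx := xw_val hb.hn hb.hk w0 (hlt i hi)
      refine ⟨i, _, LD_innW hd hi hx, Or.inl rfl, ?_, ?_⟩
      · rw [contTT, hx]
        exact hD.inn3 hi
      · rintro rfl
        refine ⟨_, Or.inl rfl, ?_⟩
        rw [htc_c0 hb.hn (Φ := Φ) (xw_ov0 hb.hn hb.hk w0), ht_eq, contTT, hx, ← ht_eq]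
        exact hD.ht1
    intro q hq w hw
    have hw' : w = TT q.1 := hw
    subst hw'
    rcases hq with e | e | e | e
    · subst e; exact key 1 (by simp)
    · subst e; exact key 3 (by simp)
    · subst e; exact key 6 (by simp)
    · subst e; exact key 8 (by simp)
  · have hkk := hb.hk
    have hd : Ft.LD (RH n (J.rf Φ)) := Ft.LD_mir hb.hn Φ hb.one (fun h1 => by omega) ⟨hr.2.1, hr.2.2.2⟩
    have hkr : n + 5 + 2 * ∑ x, J.rf Φ x = k := by rw [J.rf_sum]; exact hb.hk
    have hD := HD_RH hb.hn (rf Φ) (by rw [rf_sum]; exact hb.one)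
    have key : ∀ i j, (i, j) ∈ [(1, 11), (3, 12), (6, 15), (8, 14)] → ∃ (i : ℕ) (v : BinaryTree Unit), Ft.IW v i ∧
        ((TT (xm n Φ w0 j)).1 = v ∨ (TT (xm n Φ w0 j)).1 = Tsq.mir v) ∧ fc 3 (OddHC.cont v) = 1 ∧
        (i = 1 → ∃ c ∈ ({cyc (xm n Φ w0 0), cyc (xm n Φ w0 4)} : Set (Cyc k)), OddHC.ht v = htc c) := by
      intro i j hij
      have hi : i ∈ [1, 3, 6, 8] := by
        simp only [List.mem_cons, Prod.mk.injEq, List.not_mem_nil, or_false] at hij ⊢
        omega
      have hij' : (i, j) ∈ [(0, 10), (1, 11), (3, 12), (6, 15), (8, 14), (9, 17)] := by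
        simp only [List.mem_cons, Prod.mk.injEq, List.not_mem_nil, or_false] at hij ⊢
        omega
      have hlt : ∀ i ∈ [1, 3, 6, 8], i < 20 := by decide
      have hx := xw_val (k := k) hb.hn hkr w0 (hlt i hi)
      have h2 : TT (TT (xw n (J.rf Φ) w0 i)) = xw n (J.rf Φ) w0 j := (GR_RH hb.hn (J.rf Φ) hkr).link w0 hij'
      have h3 : (TT (xm n Φ w0 j)).1 = Tsq.mir (TT (xw n (J.rf Φ) w0 i)).1 := by
        change (TT (Tsq.mirX (xw n (J.rf Φ) w0 j))).1 = _
        rw [← h2, Tsq.TT_mir]
        rfl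
      refine ⟨i, _, LD_innW hd hi hx, Or.inr h3, ?_, ?_⟩
      · rw [contTT, hx]
        exact hD.inn3 hi
      · rintro rfl
        refine ⟨_, Or.inl rfl, ?_⟩
        rw [htc_c0 hb.hn (Φ := Φ) (xm_ov0 hb.hn hb.hk w0), ht_eq, contTT, hx, ← ht_eq]
        exact hD.ht1
    intro q hq w hw
    have hw' : w = TT q.1 := hw
    subst hw'
    rcases hq with e | e | e | e
    · subst e; exact key 1 11 (by simp)
    · subst e; exact key 3 12 (by simp)
    · subst e; exact key 6 15 (by simp)
    · subst e; exact key 8 14 (by simp)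

/-- **row I-L1-Cr** -/
theorem TyL1.inner_C (hk : 9 ≤ k) (h : TyL1 F g) {c : ℕ} {U : BinaryTree Unit} (hc : 3 ≤ c) (hU : 3 ≤ OddHC.ht U)
    (h' : TyC c U F' g') : ∀ a ∈ g.arcs, ∀ w ∈ innA a, w ∉ g'.B := by
  intro a ha w hw hw'
  obtain ⟨i, v, -, hv, h3, -⟩ := h.innw hk a ha w hw
  have h4 : fc 3 (OddHC.cont w.1) = 1 := by
    rcases hv with e | e
    · rw [e, h3]
    · rw [e, HM.cont_mir, h3]
  have h5 : 2 ≤ fc 3 (OddHC.cont w.1) := by
    apply two3 hc hU
    rcases IsTri.words h' w hw' with e | ⟨-, e | e⟩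
    · exact Or.inl e
    · exact Or.inr (Or.inr (Or.inl e))
    · exact Or.inr (Or.inr (Or.inr (Or.inr (Or.inl e))))
  omega

theorem TyL1.inner_Cr (hk : 9 ≤ k) (h : TyL1 F g) (h' : TyCr F' g') : ∀ a ∈ g.arcs, ∀ w ∈ innA a, w ∉ g'.B := by
  obtain ⟨c, U, hc, hU, hodd, ht⟩ := h'
  have hc3 : 3 ≤ c := by
    obtain ⟨x, hx⟩ := hodd
    omega
  exact h.inner_C hk hc3 (by omega) ht

/-- **row I-L1-Cl** -/
theorem TyL1.inner_C' (hk : 9 ≤ k) (h : TyL1 F g) {c : ℕ} {U : BinaryTree Unit} (hc : 2 ≤ c) (hU : 3 ≤ OddHC.ht U)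
    (h' : TyC' c U F' g') (hs : c = 2 → 2 ≤ fc 3 (OddHC.cont U) ∨ Ft.ClI U)
    (hle : ∀ c ∈ F, ∀ d ∈ F', htc c ≤ htc d) : ∀ a ∈ g.arcs, ∀ w ∈ innA a, w ∉ g'.B := by
  intro a ha w hw hw'
  obtain ⟨i, v, hi, hv, h3, h1⟩ := h.innw hk a ha w hw
  have h4 : fc 3 (OddHC.cont w.1) = 1 := by
    rcases hv with e | e
    · rw [e, h3]
    · rw [e, HM.cont_mir, h3]
  have hw0 := IsTri.words h' w hw'
  by_cases hc3 : 3 ≤ c
  · have h5 : 2 ≤ fc 3 (OddHC.cont w.1) := by
      apply two3 hc3 hU
      rcases hw0 with e | ⟨-, e | e⟩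
      · exact Or.inr (Or.inl e)
      · exact Or.inr (Or.inr (Or.inr (Or.inr (Or.inr e))))
      · exact Or.inr (Or.inr (Or.inr (Or.inl e)))
    omega
  obtain rfl : c = 2 := by omega
  have hw2 : w.1 = l1 △ (U △ .nil) ∨ w.1 = app U (.nil △ (l1 △ .nil)) ∨ w.1 = (l1 △ .nil) △ U := by
    rcases hw0 with e | ⟨_, e | e⟩
    · exact Or.inl e
    · exact Or.inr (Or.inl e)
    · exact Or.inr (Or.inr e)
  have u3 : 1 ≤ fc 3 (OddHC.cont U) := fc_pos hU (by omega)
  have hU0 : U ≠ .nil := by
    rintro rfl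
    rw [OddHC.ht] at hU
    omega
  rcases hs rfl with hs | hs
  · have r3 : fc 3 (raise (OddHC.cont U)) = fc 3 (OddHC.cont U) := fc_raise hU (by omega)
    rcases hw2 with e | e | e
    · have e1 : OddHC.cont (l1 △ (U △ .nil)) = raise (OddHC.cont l1) + OddHC.cont (U △ .nil) := cont_node _ _
      have e2 : OddHC.cont (U △ .nil) = raise (OddHC.cont U) + OddHC.cont .nil := cont_node _ _
      rw [e, e1, fc_add, e2, fc_add, r3] at h4
      omega
    · rw [e, cont_app, fc_add] at h4
      omega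
    · rw [e, cont_node, fc_add] at h4
      omega
  · have hl : 0 < Ft.ln U := by
      rcases Nat.eq_zero_or_pos (Ft.ln U) with h0 | h0
      · exfalso
        have := Ft.ln_ge_ht U
        have h2 := Ft.ht_rd_ge U
        have h5 := Ring1.ht_tsq U
        omega
      · exact h0
    have hhost : OddHC.ht v = OddHC.ht U + 1 → i ≠ 1 := by
      rintro h6 rfl
      obtain ⟨c, hc, h7⟩ := h1 rfl
      obtain ⟨a', b', c', ha', hb', hc', _, _, _, rfl, rfl⟩ := h'
      have h8 := hle c hc (cyc b') (Or.inl rfl)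
      rw [htc_cyc, hb'] at h8
      have h9 : OddHC.ht (w1 U .nil (H1.ch 2)) = max (OddHC.ht U) 2 := by
        change OddHC.ht (app U (.nil △ (l1 △ .nil))) = _
        rw [OddHC.ht_app]
        rfl
      omega
    rcases hv with hv | hv
    · rcases hw2 with e | e | e
      · have e1 : v = l1 △ (U △ .nil) := by rw [← hv, e]
        refine hi.hostR (hhost ?_) hl e1 hs.near hs.stp
        rw [e1]
        simp only [OddHC.ht]
        omega
      · exact hi.newR (by rw [← hv, e])
      · have f3 : fc 3 (raise (OddHC.cont (l1 △ .nil))) = 1 := by decide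
        rw [e, cont_node, fc_add, f3] at h4
        omega
    · have hm : v = Tsq.mir w.1 := by rw [hv, Tsq.mir_mir]
      rcases hw2 with e | e | e
      · have e1 : v = Tsq.mir U △ (l1 △ .nil) := by
          rw [hm, e, Tsq.mir_node, Tsq.mir_node]
          rfl
        refine hi.hostM (hhost ?_) (by rw [Ft.ln_mir]; exact hl) e1 hs.near.mir (fun h9 => hs.stm (by rwa [Ft.len_mir] at h9))
        rw [e1]
        simp only [OddHC.ht]
        rw [J.ht_mir]
        omega
      · exact hi.newM (by rw [hm, e, Tsq.mir_app, Tsq.mir_node, Tsq.mir_node]; rfl) hs.tipM hs.oneM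
      · have f3 : fc 3 (raise (OddHC.cont (l1 △ .nil))) = 1 := by decide
        rw [e, cont_node, fc_add, f3] at h4
        omega

end Pool.OddHC
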