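import Pool.Agent.Work.MP_8f87b2_h19.CrL1

/-!
# MP_8f87b2_co: row W-Cl-L1

`TyL1.disj_Cl` : a gadget of type L1 and a left content link with host `[c](U)`, `c` even, have no common word; for `c = 2`
with the side conditions `ClOk U`.
-/

set_option autoImplicit false
set_option linter.unusedSimpArgs false
set_option linter.unusedVariables false

namespace Pool.OddHC

open BinaryTree Pool.Agent.Work.MP_8f87b2_co

namespace L1C

open J

variable {k n : ℕ} {R B S U : BinaryTree Unit}

/-- the word with given components -/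
def ofl : List (BinaryTree Unit) → BinaryTree Unit
  | [] => .nil
  | A :: L => A △ ofl L

theorem cs_ofl (L : List (BinaryTree Unit)) : cs (ofl L) = L := by
  induction L with
  | nil => rfl
  | cons A L ih => rw [ofl, cs_node, ih]

theorem of_rev1 {A X : BinaryTree Unit} {L : List (BinaryTree Unit)} (h : (cs X).reverse = A :: L) :
    X = app (ofl L.reverse) (A △ .nil) := by
  apply cs_inj
  rw [cs_app, cs_ofl, cs_node, cs_nil]
  have := congrArg List.reverse h
  rw [List.reverse_reverse, List.reverse_cons] at this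
  exact this

theorem of_rev2 {A C X : BinaryTree Unit} {L : List (BinaryTree Unit)} (h : (cs X).reverse = A :: C :: L) :
    X = app (ofl L.reverse) (C △ (A △ .nil)) := by
  apply cs_inj
  rw [cs_app, cs_ofl, cs_node, cs_node, cs_nil]
  have := congrArg List.reverse h
  rw [List.reverse_reverse, List.reverse_cons, List.reverse_cons, List.append_assoc] at this
  exact this

theorem of_head1 {A X : BinaryTree Unit} {L : List (BinaryTree Unit)} (h : cs X = A :: L) : X = A △ ofl L := by
  apply cs_inj
  rw [h, cs_node, cs_ofl]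

theorem of_head2 {A C X : BinaryTree Unit} {L : List (BinaryTree Unit)} (h : cs X = A :: C :: L) :
    X = A △ (C △ ofl L) := by
  apply cs_inj
  rw [h, cs_node, cs_node, cs_ofl]

/-! ### Gaps -/

theorem ps_last1 {X Y : BinaryTree Unit} (h : X = app Y l1) : Ft.ln X ∈ Ft.ps X := by
  subst h
  rw [Ft.ps_app, Ft.ln_app]
  have h1 : Ft.ps l1 = [0] := rfl
  have h2 : Ft.ln l1 = 0 := rfl
  rw [h1, h2]
  simp

theorem ps_last2 {X Y : BinaryTree Unit} (h : X = app Y (.nil △ (l1 △ .nil))) :
    ∃ y, y + 2 = Ft.ln X ∧ y ∈ Ft.ps X := by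
  subst h
  refine ⟨Ft.ln Y, ?_, ?_⟩
  · rw [Ft.ln_app]
    rfl
  · rw [Ft.ps_app]
    have h1 : Ft.ps (.nil △ (l1 △ .nil)) = [0] := rfl
    rw [h1]
    simp

theorem ps_head1 {X Y : BinaryTree Unit} (h : X = .nil △ Y) : 0 ∈ Ft.ps X := by
  subst h
  rw [Ft.ps_leaf]
  simp

theorem ps_head2 {X Y : BinaryTree Unit} (h : X = l1 △ (.nil △ Y)) : 2 ∈ Ft.ps X := by
  subst h
  rw [Ft.ps_node' (by simp), Ft.ps_leaf]
  have h2 : Ft.ln l1 = 0 := rfl
  rw [h2]
  simp

theorem HD.R1 (h : HD n R B S) (L : List (BinaryTree Unit)) : cs R ≠ .nil :: L := by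
  intro e
  obtain ⟨x, h1, h2⟩ := h.odd
  have h3 := ps_head1 (of_head1 e)
  rw [h1, List.mem_singleton] at h3
  omega

theorem HD.R2 (h : HD n R B S) (L : List (BinaryTree Unit)) : cs R ≠ l1 :: .nil :: L := by
  intro e
  obtain ⟨x, h1, h2⟩ := h.odd
  have h3 := ps_head2 (of_head2 e)
  rw [h1, List.mem_singleton] at h3
  omega

theorem HD.R3 (h : HD n R B S) (L : List (BinaryTree Unit)) : (cs R).reverse ≠ .nil :: L := by
  intro e
  rcases h.cas with hA | hB
  · obtain ⟨L', hL⟩ := hA.lastR
    rw [hL] at e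
    simp at e
  · obtain ⟨x, h2, h1⟩ := hB.pR
    have h3 := ps_last1 (of_rev1 e)
    rw [h1, List.mem_singleton] at h3
    omega

theorem HD.R4 (h : HD n R B S) (L : List (BinaryTree Unit)) : (cs R).reverse ≠ l1 :: .nil :: L := by
  intro e
  rcases h.cas with hA | hB
  · obtain ⟨L', hL⟩ := hA.lastR
    rw [hL] at e
    simp at e
  · obtain ⟨x, h2, h1⟩ := hB.pR
    obtain ⟨y, h4, h3⟩ := ps_last2 (of_rev2 e)
    rw [h1, List.mem_singleton] at h3
    omega

theorem CB.S1 (h : CB R B S) (L : List (BinaryTree Unit)) : cs S ≠ .nil :: L := by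
  intro e
  obtain ⟨x, h2, h1⟩ := h.pS
  have h3 := ps_head1 (of_head1 e)
  have := h.s6
  rw [h1, List.mem_singleton] at h3
  omega

theorem CB.S2 (h : CB R B S) (L : List (BinaryTree Unit)) : cs S ≠ l1 :: .nil :: L := by
  intro e
  obtain ⟨x, h2, h1⟩ := h.pS
  have h3 := ps_head2 (of_head2 e)
  have := h.s6
  rw [h1, List.mem_singleton] at h3
  omega

theorem CB.S3 (h : CB R B S) (L : List (BinaryTree Unit)) : (cs S).reverse ≠ .nil :: L := by
  intro e
  obtain ⟨x, h2, h1⟩ := h.pS
  have h3 := ps_last1 (of_rev1 e)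
  rw [h1, List.mem_singleton] at h3
  omega

theorem ht_cs1 {X : BinaryTree Unit} (h : cs X = [l1]) : ht X = 2 := by
  rw [of_head1 h]
  rfl

theorem ht_cs2 {X : BinaryTree Unit} (h : cs X = [l2]) : ht X = 2 := by
  rw [of_head1 h]
  rfl

theorem HD.Rl (h : HD n R B S) : cs R ≠ [l1] ∧ cs R ≠ [l2] ∧ cs S ≠ [l1] ∧ cs R ≠ [] ∧ cs S ≠ [] := by
  have h1 := h.hR
  have h2 := h.hS
  have h3 := h.hn
  refine ⟨?_, ?_, ?_, ?_, ?_⟩
  · intro e
    have := ht_cs1 e
    omega
  · intro e
    have := ht_cs2 e
    omega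
  · intro e
    have := ht_cs1 e
    omega
  · intro e
    have : R = .nil := cs_inj e
    rw [this, ht] at h1
    omega
  · intro e
    have : S = .nil := cs_inj e
    rw [this, ht] at h2
    omega

theorem ps_comp {X U : BinaryTree Unit} {c x : ℕ} (h : cs X = [U]) (hU : U ≠ .nil) (h6 : 6 ≤ Ft.ln X) (hp : Ft.ps X = [x])
    (hx : x + c + 1 = Ft.ln X) : ∃ y, Ft.ps U = [y] ∧ y + c = Ft.ln U := by
  have e := of_head1 h
  have e' : X = U △ .nil := e
  subst e'
  have h1 := Ft.ln_node hU .nil
  have h0 : Ft.ln (BinaryTree.nil : BinaryTree Unit) = 0 := rfl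
  rw [h0] at h1
  have h2 := Ft.ps_node (A := U) (by omega) .nil
  rw [hp, Ft.ps_nil, List.map_nil, List.append_nil] at h2
  cases hq : Ft.ps U with
  | nil => rw [hq] at h2; simp at h2
  | cons y L =>
    rw [hq, List.map_cons, List.cons.injEq] at h2
    have h3 : L = [] := by
      have := h2.2.symm
      simpa using this
    subst h3
    exact ⟨y, rfl, by omega⟩

theorem HD.singleR (h : HD n R B S) (hU : U ≠ .nil) (e : cs R = [U]) :
    ∃ y, Ft.ps U = [y] ∧ (y + 1 = Ft.ln U ∨ y + 2 = Ft.ln U) := by
  rcases h.cas with hA | hB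
  · exfalso
    obtain ⟨L, hL⟩ := hA.lastR
    rw [hL] at e
    have h1 : L = [] := by
      have := congrArg List.length e
      simpa using this
    subst h1
    exact h.Rl.2.1 hL
  · obtain ⟨x, h2, h1⟩ := hB.pR
    obtain ⟨y, h3, h4⟩ := ps_comp (c := 2) e hU hB.r6 h1 (by omega)
    exact ⟨y, h3, Or.inr h4⟩

theorem CB.singleS (h : CB R B S) (hU : U ≠ .nil) (e : cs S = [U]) :
    ∃ y, Ft.ps U = [y] ∧ (y + 1 = Ft.ln U ∨ y + 2 = Ft.ln U) := by
  obtain ⟨x, h2, h1⟩ := h.pS
  obtain ⟨y, h3, h4⟩ := ps_comp (c := 1) e hU h.s6 h1 (by omega)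
  exact ⟨y, h3, Or.inl h4⟩

theorem snoc2 {α : Type*} {L : List α} {a b c : α} (h : L ++ [a] = [b, c]) : L = [b] ∧ a = c := by
  have h1 : L ++ [a] = [b] ++ [c] := h
  have := List.append_inj' h1 rfl
  exact ⟨this.1, by simpa using this.2⟩

theorem snocn {α : Type*} {L M : List α} {a b : α} (h : L ++ [a] = M ++ [b]) : L = M ∧ a = b := by
  have := List.append_inj' h rfl
  exact ⟨this.1, by simpa using this.2⟩

theorem hlen {α : Type*} {L M : List α} (h : L = M) : L.length = M.length := by rw [h]

/-- (a) the host `(())(U)` -/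
theorem HD.cla (h : HD n R B S) {i : ℕ} (hi : i < 20) (hi5 : i ≠ 5) (hU : 3 ≤ ht U)
    (e : H1.W R .nil B S i = l1 △ (U △ .nil)) : 
    ∃ y, Ft.ps U = [y] ∧ (y + 1 = Ft.ln U ∨ y + 2 = Ft.ln U) := by
  have hU0 : U ≠ .nil := by rintro rfl; rw [ht] at hU; omega
  have hU1 : U ≠ l1 := by rintro rfl; change 3 ≤ 1 at hU; omega
  obtain ⟨r1, r2, r3, r4, r5⟩ := h.Rl
  have lR : 1 ≤ (cs R).length := List.length_pos_iff.2 r4
  have lS : 1 ≤ (cs S).length := List.length_pos_iff.2 r5
  have lU : 1 ≤ (cs U).length := List.length_pos_iff.2 (fun e => hU0 (cs_inj e))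
  rcases h.cas with hA | hB
  · obtain ⟨t, hBl, _⟩ := hA.csB
    obtain ⟨b1, b2, b3, b4, b5, b6, b7, b8⟩ := hA.facts
    interval_cases i <;> obtain ⟨h7, h8, h9⟩ := cs_fb e <;>
      simp only [H1.W, app, cs_app, cs_node, cs_nil, List.reverse_append, List.reverse_cons, List.reverse_nil, hBl,
        List.nil_append, List.cons_append, List.cons.injEq, List.length_append, List.length_cons, List.length_nil,
        List.length_replicate] at h7 h8 h9
    all_goals first
      | omega
      | exact absurd h8.1.symm hU0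
      | exact absurd h8.1.symm hU1
      | exact absurd h7.1.symm hU0
      | exact absurd h7.1.symm hU1
      | (exfalso; simp at h7; done)
      | (exfalso; simp at h8; done)
      | exact h.singleR hU0 h7.2
      | exact absurd (snoc2 h7).1 r3
      | exact absurd (node_inj' h7.1).2 b8
      | exact (h7 : True)
  · have hb := hB.b
    subst hb
    interval_cases i <;> obtain ⟨h7, h8, h9⟩ := cs_fb e <;>
      simp only [H1.W, app, cs_app, cs_node, cs_nil, List.reverse_append, List.reverse_cons, List.reverse_nil,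
        List.nil_append, List.cons_append, List.cons.injEq, List.length_append, List.length_cons, List.length_nil,
        List.length_replicate] at h7 h8 h9
    all_goals first
      | omega
      | exact absurd h8.1.symm hU0
      | exact absurd h8.1.symm hU1
      | exact absurd h7.1.symm hU0
      | exact absurd h7.1.symm hU1
      | (exfalso; simp at h7; done)
      | (exfalso; simp at h8; done)
      | exact h.singleR hU0 h7.2
      | exact hB.singleS hU0 h7.2
      | exact (h7 : True)

/-- (b) the mirrored host `(U)(())` -/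
theorem HD.clb (h : HD n R B S) {i : ℕ} (hi : i < 20) (hi5 : i ≠ 5) (hU : 3 ≤ ht U)
    (e : H1.W R .nil B S i = U △ (l1 △ .nil)) : 
    ∃ y, Ft.ps U = [y] ∧ (y + 1 = Ft.ln U ∨ y + 2 = Ft.ln U) := by
  have hU0 : U ≠ .nil := by rintro rfl; rw [ht] at hU; omega
  have hU1 : U ≠ l1 := by rintro rfl; change 3 ≤ 1 at hU; omega
  obtain ⟨r1, r2, r3, r4, r5⟩ := h.Rl
  have lR : 1 ≤ (cs R).length := List.length_pos_iff.2 r4
  have lS : 1 ≤ (cs S).length := List.length_pos_iff.2 r5
  have lU : 1 ≤ (cs U).length := List.length_pos_iff.2 (fun e => hU0 (cs_inj e))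
  rcases h.cas with hA | hB
  · obtain ⟨t, hBl, _⟩ := hA.csB
    obtain ⟨b1, b2, b3, b4, b5, b6, b7, b8⟩ := hA.facts
    interval_cases i <;> obtain ⟨h7, h8, h9⟩ := cs_fb e <;>
      simp only [H1.W, app, cs_app, cs_node, cs_nil, List.reverse_append, List.reverse_cons, List.reverse_nil, hBl,
        List.nil_append, List.cons_append, List.cons.injEq, List.length_append, List.length_cons, List.length_nil,
        List.length_replicate] at h7 h8 h9
    all_goals first
      | omega
      | exact absurd h8.1.symm hU0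
      | exact absurd h8.1.symm hU1
      | exact absurd h7.1.symm hU0
      | exact absurd h7.1.symm hU1
      | (exfalso; simp at h7; done)
      | (exfalso; simp at h8; done)
      | exact h.singleR hU0 (snoc2 h7).1
      | exact absurd (snoc2 h7).2 b5
      | exact (h7 : True)
  · have hb := hB.b
    subst hb
    interval_cases i <;> obtain ⟨h7, h8, h9⟩ := cs_fb e <;>
      simp only [H1.W, app, cs_app, cs_node, cs_nil, List.reverse_append, List.reverse_cons, List.reverse_nil,
        List.nil_append, List.cons_append, List.cons.injEq, List.length_append, List.length_cons, List.length_nil,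
        List.length_replicate] at h7 h8 h9
    all_goals first
      | omega
      | exact absurd h8.1.symm hU0
      | exact absurd h8.1.symm hU1
      | exact absurd h7.1.symm hU0
      | exact absurd h7.1.symm hU1
      | (exfalso; simp at h7; done)
      | (exfalso; simp at h8; done)
      | exact h.singleR hU0 (snoc2 h7).1
      | exact hB.singleS hU0 (snoc2 h7).1
      | exact (h7 : True)

theorem split2 {α : Type*} {L M : List α} {a b c : α} (h : L ++ [a] = b :: c :: M) :
    (∃ M', L = b :: c :: M') ∨ (L = [b] ∧ a = c ∧ M = []) := by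
  match L, h with
  | [], h => simp at h
  | [x], h =>
    right
    simp at h
    exact ⟨by rw [h.1], h.2.1, h.2.2⟩
  | x :: y :: L', h =>
    left
    simp at h
    exact ⟨L', by rw [h.1, h.2.1]⟩

theorem rev1 {α : Type*} {L : List α} {a : α} (h : L.reverse = [a]) : L = [a] := by
  have := congrArg List.reverse h
  simpa using this

theorem CA.sndr (h : CA n R B S) (hs : cs S ≠ [l1]) {L L' : List (BinaryTree Unit)} {a : BinaryTree Unit}
    (e : (cs S).reverse ++ a :: L = l1 :: .nil :: L') : False := by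
  have hf := h.facts.2.2.2.2.2.2.1
  match hc : (cs S).reverse, e with
  | [], e =>
    have : cs S = [] := by simpa using hc
    exact h.facts.2.2.2.2.2.2.2 (cs_inj this)
  | [x], e =>
    simp at e
    rw [e.1] at hc
    exact hs (rev1 hc)
  | x :: y :: M, e =>
    simp at e
    have : y ∈ (cs S).reverse := by rw [hc]; simp
    exact hf y (List.mem_reverse.1 this) e.2.1

theorem split3 {α : Type*} {L N M : List α} {b c : α} (h : L ++ N = b :: c :: M) :
    L = [] ∨ L = [b] ∨ ∃ M', L = b :: c :: M' := by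
  match L, h with
  | [], h => exact Or.inl rfl
  | [x], h =>
    simp at h
    exact Or.inr (Or.inl (by rw [h.1]))
  | x :: y :: L', h =>
    simp at h
    exact Or.inr (Or.inr ⟨L', by rw [h.1, h.2.1]⟩)

theorem rep_no {t : ℕ} {L M : List (BinaryTree Unit)}
    (h : List.replicate t l1 ++ [l2] ++ L = l1 :: .nil :: M) : False := by
  match t, h with
  | 0, h => simp at h
  | 1, h => simp at h
  | t + 2, h => simp [List.replicate_succ] at h

theorem two_nil (hs : cs S ≠ [l1]) (hU : U ≠ .nil) (e : .nil :: .nil :: cs S = cs U ++ [.nil, l1]) :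
    ∃ X, U = .nil △ (.nil △ X) := by
  match hc : cs U, e with
  | [], e => exact absurd (cs_inj hc) hU
  | [x], e =>
    simp at e
    exact absurd e.2 hs
  | x :: y :: M, e =>
    simp at e
    refine ⟨ofl M, ?_⟩
    rw [of_head2 hc, ← e.1, ← e.2.1]

/-- (c) the new word `U()(())` -/
theorem HD.clc (h : HD n R B S) {i : ℕ} (hi : i < 20) (hi5 : i ≠ 5) (hU : 3 ≤ ht U)
    (e : H1.W R .nil B S i = app U (.nil △ (l1 △ .nil))) : i = 10 ∨ ∃ X, U = .nil △ (.nil △ X) := by
  have hU0 : U ≠ .nil := by rintro rfl; rw [ht] at hU; omega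
  have hU1 : U ≠ l1 := by rintro rfl; change 3 ≤ 1 at hU; omega
  obtain ⟨r1, r2, r3, r4, r5⟩ := h.Rl
  have lR : 1 ≤ (cs R).length := List.length_pos_iff.2 r4
  have lS : 1 ≤ (cs S).length := List.length_pos_iff.2 r5
  have lU : 1 ≤ (cs U).length := List.length_pos_iff.2 (fun e => hU0 (cs_inj e))
  have hS1 : S ≠ l1 := by
    rintro rfl
    have h10 := h.hS
    have h11 := h.hn
    change 1 = _ at h10
    omega
  rcases h.cas with hA | hB
  · obtain ⟨t, hBl, _⟩ := hA.csB
    obtain ⟨b1, b2, b3, b4, b5, b6, b7, b8⟩ := hA.facts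
    interval_cases i <;> obtain ⟨h7, h8, h9⟩ := cs_fb e <;>
      simp only [H1.W, app, cs_app, cs_node, cs_nil, List.reverse_append, List.reverse_cons, List.reverse_nil, hBl,
        List.nil_append, List.cons_append, List.cons.injEq, List.length_append, List.length_cons, List.length_nil,
        List.length_replicate] at h7 h8 h9
    all_goals first
      | omega
      | exact absurd h8.1.symm hU0
      | exact absurd h8.1.symm hU1
      | exact absurd h7.1.symm hU0
      | exact absurd h7.1.symm hU1
      | (exfalso; simp at h7; done)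
      | (exfalso; simp at h8; done)
      | exact absurd h8.2 (h.R3 _)
      | exact absurd h8.1 b5
      | exact absurd h8.1 b2
      | (rcases split2 h8 with ⟨M', h10⟩ | ⟨h10, _⟩
         · exact absurd h10 (h.R4 _)
         · exact absurd (rev1 h10) r1)
      | (exfalso
         rw [List.append_assoc, List.append_assoc, List.singleton_append, List.singleton_append] at h8
         exact hA.sndr r3 h8)
      | exact (h8 : True)
  · have hb := hB.b
    subst hb
    interval_cases i <;> obtain ⟨h7, h8, h9⟩ := cs_fb e <;>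
      simp only [H1.W, app, cs_app, cs_node, cs_nil, List.reverse_append, List.reverse_cons, List.reverse_nil,
        List.nil_append, List.cons_append, List.cons.injEq, List.length_append, List.length_cons, List.length_nil,
        List.length_replicate] at h7 h8 h9
    all_goals first
      | omega
      | exact absurd h8.1.symm hU0
      | exact absurd h8.1.symm hU1
      | exact absurd h7.1.symm hU0
      | exact absurd h7.1.symm hU1
      | (exfalso; simp at h7; done)
      | (exfalso; simp at h8; done)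
      | exact absurd h8.2 (h.R3 _)
      | exact absurd h8.2 (hB.S3 _)
      | (rcases split2 h8 with ⟨M', h10⟩ | ⟨h10, _⟩
         · exact absurd h10 (h.R4 _)
         · exact absurd (rev1 h10) r1)
      | exact Or.inr (two_nil r3 hU0 h7)
      | exact (h8 : True)

/-- (d) the mirrored new word `(())()U` -/
theorem HD.cld (h : HD n R B S) {i : ℕ} (hi : i < 20) (hi5 : i ≠ 5) (hU : 3 ≤ ht U)
    (e : H1.W R .nil B S i = l1 △ (.nil △ U)) : False := by
  have hU0 : U ≠ .nil := by rintro rfl; rw [ht] at hU; omega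
  have hU1 : U ≠ l1 := by rintro rfl; change 3 ≤ 1 at hU; omega
  obtain ⟨r1, r2, r3, r4, r5⟩ := h.Rl
  have lR : 1 ≤ (cs R).length := List.length_pos_iff.2 r4
  have lS : 1 ≤ (cs S).length := List.length_pos_iff.2 r5
  have lU : 1 ≤ (cs U).length := List.length_pos_iff.2 (fun e => hU0 (cs_inj e))
  have hS1 : S ≠ l1 := by
    rintro rfl
    have h10 := h.hS
    have h11 := h.hn
    change 1 = _ at h10
    omega
  rcases h.cas with hA | hB
  · obtain ⟨t, hBl, _⟩ := hA.csB
    obtain ⟨b1, b2, b3, b4, b5, b6, b7, b8⟩ := hA.facts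
    interval_cases i <;> obtain ⟨h7, h8, h9⟩ := cs_fb e <;>
      simp only [H1.W, app, cs_app, cs_node, cs_nil, List.reverse_append, List.reverse_cons, List.reverse_nil, hBl,
        List.nil_append, List.cons_append, List.cons.injEq, List.length_append, List.length_cons, List.length_nil,
        List.length_replicate] at h7 h8 h9
    all_goals first
      | omega
      | exact absurd h8.1.symm hU0
      | exact absurd h8.1.symm hU1
      | exact absurd h7.1.symm hU0
      | exact absurd h7.1.symm hU1
      | (exfalso; simp at h7; done)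
      | (exfalso; simp at h8; done)
      | exact h.R1 _ h7.2
      | exact hA.snd b4 h7
      | exact hA.snd b1 h7
      | exact b8 (node_inj' h7.1).2
      | exact rep_no h7
      | exact hS1 h7.1
      | (rcases split3 h7 with h10 | h10 | ⟨M', h10⟩
         · exact r4 h10
         · exact r1 h10
         · exact h.R2 _ h10)
      | exact (h7 : True)
  · have hb := hB.b
    subst hb
    interval_cases i <;> obtain ⟨h7, h8, h9⟩ := cs_fb e <;>
      simp only [H1.W, app, cs_app, cs_node, cs_nil, List.reverse_append, List.reverse_cons, List.reverse_nil,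
        List.nil_append, List.cons_append, List.cons.injEq, List.length_append, List.length_cons, List.length_nil,
        List.length_replicate] at h7 h8 h9
    all_goals first
      | omega
      | exact absurd h8.1.symm hU0
      | exact absurd h8.1.symm hU1
      | exact absurd h7.1.symm hU0
      | exact absurd h7.1.symm hU1
      | (exfalso; simp at h7; done)
      | (exfalso; simp at h8; done)
      | exact h.R1 _ h7.2
      | exact hB.S1 _ h7.2
      | (rcases split3 h7 with h10 | h10 | ⟨M', h10⟩
         · exact r4 h10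
         · exact r1 h10
         · exact h.R2 _ h10)
      | (rcases split3 h7 with h10 | h10 | ⟨M', h10⟩
         · exact r5 h10
         · exact r3 h10
         · exact hB.S2 _ h10)
      | exact (h7 : True)

/-- the exceptional trees `(())^u ((())^t (()()) ())` and `(())^u ((())^t (()())) ()` (height 3, two beads) -/
def BadU (U : BinaryTree Unit) : Prop :=
  ∃ (u t : ℕ) (B : BinaryTree Unit), cs B = List.replicate t l1 ++ [l2] ∧
    (cs U = List.replicate u l1 ++ [app B l1] ∨ cs U = List.replicate u l1 ++ [B, .nil])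

/-- (e) the new word `[3]U` -/
theorem HD.cle (h : HD n R B S) {i : ℕ} (hi : i < 20) (hU : 3 ≤ ht U)
    (e : H1.W R .nil B S i = (l1 △ .nil) △ U) : BadU U := by
  have hU0 : U ≠ .nil := by rintro rfl; rw [ht] at hU; omega
  have lU : 1 ≤ (cs U).length := List.length_pos_iff.2 (fun e => hU0 (cs_inj e))
  have u3 : 1 ≤ fc 3 (cont U) := fc_pos hU (by omega)
  have f3 : fc 3 (raise (cont (l1 △ .nil))) = 1 := by decide
  obtain ⟨h6, hA⟩ := h.three hi (by rw [e, cont_node, fc_add, f3]; omega)
  obtain ⟨t, hBl, _⟩ := hA.csB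
  obtain ⟨D, u, hD, hS⟩ := hA.csS
  rcases h6 with rfl | rfl | rfl | rfl <;> obtain ⟨h7, h8, h9⟩ := cs_fb e
  · have h10 : cs S ++ [app B l1] = (l1 △ .nil) :: cs U := by
      rw [← cs_node, ← h7]
      simp [H1.W]
    rw [hS, List.cons_append, List.cons.injEq] at h10
    exact ⟨u, t, B, hBl, Or.inl h10.2.symm⟩
  · have h10 : cs S ++ [B, .nil] = (l1 △ .nil) :: cs U := by
      rw [← cs_node, ← h7]
      simp [H1.W]
    rw [hS, List.cons_append, List.cons.injEq] at h10
    exact ⟨u, t, B, hBl, Or.inr h10.2.symm⟩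
  · simp [H1.W, app] at h7
  · simp [H1.W] at h9
    first
      | omega
      | (rw [h9] at lU; simp at lU)

/-- (f) the mirrored new word `U[3]` -/
theorem HD.clf (h : HD n R B S) {i : ℕ} (hi : i < 20) (hU : 3 ≤ ht U)
    (e : H1.W R .nil B S i = app U ((l1 △ .nil) △ .nil)) : False := by
  have hU0 : U ≠ .nil := by rintro rfl; rw [ht] at hU; omega
  have lU : 1 ≤ (cs U).length := List.length_pos_iff.2 (fun e => hU0 (cs_inj e))
  have u3 : 1 ≤ fc 3 (cont U) := fc_pos hU (by omega)
  have f3 : fc 3 (raise (cont (l1 △ .nil))) = 1 := by decide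
  obtain ⟨h6, hA⟩ := h.three hi (by rw [e, cont_app, cont_node, fc_add, fc_add, f3]; omega)
  obtain ⟨b1, b2, b3, b4, b5, b6, b7, b8⟩ := hA.facts
  rcases h6 with rfl | rfl | rfl | rfl <;> obtain ⟨h7, h8, h9⟩ := cs_fb e <;>
    simp only [H1.W, app, cs_app, cs_node, cs_nil, List.reverse_append, List.reverse_cons, List.reverse_nil,
      List.nil_append, List.cons_append, List.cons.injEq, List.length_append, List.length_cons, List.length_nil] at h7 h8 h9
  · exact b6 h8.1
  · simp at h8
  · exact b3 h8.1
  · omega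

/-- the content of an exceptional tree -/
theorem BadU.cont (h : BadU U) : ∃ a, OddHC.cont U = {3} + Multiset.replicate a 2 + {1} + {1} := by
  obtain ⟨u, t, B, hB, hU⟩ := h
  have hB' : B = app (b2 t) (l2 △ .nil) := by
    apply cs_inj
    rw [hB, cs_app, cs_b2]
    rfl
  have c2 : OddHC.cont (l2 △ .nil) = {2} + {1} := by decide
  have hcB : OddHC.cont B = {2} + (Multiset.replicate t 2 + {1}) := by
    rw [hB', cont_app, cont_b2, c2]
    abel
  have r1 : raise (OddHC.cont B) = {3} + (Multiset.replicate t 2 + {1}) := by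
    rw [hcB, raise_gen (s := 2)]
    intro x hx
    rw [Multiset.mem_add, Multiset.mem_singleton] at hx
    rcases hx with hx | hx
    · rw [Multiset.eq_of_mem_replicate hx]
    · omega
  have r2 : raise (OddHC.cont (app B l1)) = {3} + (Multiset.replicate t 2 + {1} + {1}) := by
    have e1 : OddHC.cont (app B l1) = {2} + (Multiset.replicate t 2 + {1} + {1}) := by
      rw [cont_app, hcB]
      have : OddHC.cont l1 = {1} := rfl
      rw [this]
      abel
    rw [e1, raise_gen (s := 2)]
    intro x hx
    rw [Multiset.mem_add, Multiset.mem_add, Multiset.mem_singleton] at hx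
    rcases hx with (hx | hx) | hx
    · rw [Multiset.eq_of_mem_replicate hx]
    · omega
    · omega
  rcases hU with hU | hU
  · have hU' : U = app (b2 u) (app B l1 △ .nil) := by
      apply cs_inj
      rw [hU, cs_app, cs_b2]
      rfl
    refine ⟨u + t, ?_⟩
    rw [hU', cont_app, cont_node, r2, cont_b2, cont_nil, Multiset.replicate_add]
    abel
  · have hU' : U = app (b2 u) (B △ l1) := by
      apply cs_inj
      rw [hU, cs_app, cs_b2]
      rfl
    refine ⟨u + t, ?_⟩
    have e2 : OddHC.cont l1 = {1} := rfl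
    rw [hU', cont_app, cont_node, r1, cont_b2, e2, Multiset.replicate_add]
    abel

/-- **the side condition of a left content link with `c = 2`, host `(())(U)`** -/
structure ClOk (U : BinaryTree Unit) : Prop where
  gap : ¬ ∃ x, Ft.ps U = [x] ∧ (x = 1 ∨ x = 2 ∨ x + 1 = Ft.ln U ∨ x + 2 = Ft.ln U)
  start : ∀ X, U ≠ .nil △ (.nil △ X)
  bad : ¬ BadU U

theorem ClOk.of_one (h1 : ∀ x, Ft.ps U = [x] → x ≠ 1 ∧ x ≠ 2 ∧ x + 1 ≠ Ft.ln U ∧ x + 2 ≠ Ft.ln U)
    (h2 : (OddHC.cont U).count 1 ≠ 2 ∨ (4 ≤ ht U ∧ H1.fb U = false)) (h3 : (OddHC.cont U).count 1 ≤ 2 ∨ H1.fb U = false) :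
    ClOk U := by
  refine ⟨?_, ?_, ?_⟩
  · rintro ⟨x, hx, h4⟩
    obtain ⟨a1, a2, a3, a4⟩ := h1 x hx
    rcases h4 with h4 | h4 | h4 | h4
    · exact a1 h4
    · exact a2 h4
    · exact a3 h4
    · exact a4 h4
  · rintro X rfl
    have h5 : 2 ≤ (OddHC.cont (.nil △ (.nil △ X))).count 1 := by
      rw [cont_node, cont_node, raise_nil, Multiset.count_add, Multiset.count_add]
      simp
      omega
    have h6 : H1.fb (.nil △ (.nil △ X)) = true := rfl
    rcases h3 with h3 | h3
    · rcases h2 with h2 | h2
      · omega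
      · rw [h2.2] at h6
        exact absurd h6 (by simp)
    · rw [h3] at h6
      exact absurd h6 (by simp)
  · intro hb
    obtain ⟨a, ha⟩ := hb.cont
    have h5 : (OddHC.cont U).count 1 = 2 := by
      rw [ha, Multiset.count_add, Multiset.count_add, Multiset.count_add, Multiset.count_replicate]
      simp
    have h6 : ht U ≤ 3 := by
      rw [ht_eq, ha]
      refine Multiset.sup_le.2 ?_
      intro x hx
      simp only [Multiset.mem_add, Multiset.mem_singleton] at hx
      rcases hx with ((hx | hx) | hx) | hx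
      · omega
      · rw [Multiset.eq_of_mem_replicate hx]
        omega
      · omega
      · omega
    rcases h2 with h2 | h2
    · exact h2 h5
    · omega

end L1C

open L1C L1 J

variable {k : ℕ} {F F' : Set (Cyc k)} {g g' : DG k}

/-- **row W-Cl-L1** -/
theorem TyL1.disj_Cl (h : TyL1 F g) {c : ℕ} {U : BinaryTree Unit} (hc : 2 ≤ c) (hU : c + 1 ≤ OddHC.ht U) (hev : Even c)
    (ht : TyC' c U F' g') (hok : c = 2 → ClOk U) (hd : ∀ c ∈ F, c ∉ F') : ∀ w ∈ g.B, w ∉ g'.B := by
  intro w hw hw'
  obtain ⟨n, R, B, S, i, hdd, hi, hi5, h10, hw1⟩ := h.word hw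
  have hUm : c + 1 ≤ OddHC.ht (Tsq.mir U) := by rw [J.ht_mir]; exact hU
  by_cases hc2 : c = 2
  · subst hc2
    have hok' := hok rfl
    have hw2 : w.1 = l1 △ (U △ .nil) ∨ (cyc w ∈ F' ∧ (w.1 = app U (.nil △ (l1 △ .nil)) ∨ w.1 = (l1 △ .nil) △ U)) := by
      rcases ht.words w hw' with e | ⟨e0, e | e⟩
      · exact Or.inl e
      · exact Or.inr ⟨e0, Or.inl e⟩
      · exact Or.inr ⟨e0, Or.inr e⟩
    rcases hw2 with e | ⟨e0, e | e⟩ <;> rcases hw1 with hw1 | hw1 <;> rw [hw1] at e
    · obtain ⟨y, h1, h2⟩ := hdd.cla hi hi5 hU e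
      apply hok'.gap
      refine ⟨y, h1, ?_⟩
      rcases h2 with h2 | h2
      · exact Or.inr (Or.inr (Or.inl h2))
      · exact Or.inr (Or.inr (Or.inr h2))
    · obtain ⟨y, h1, h2⟩ := hdd.clb hi hi5 hUm (L1C.mir_eq e)
      apply hok'.gap
      rw [Ft.ps_mir] at h1
      rw [Ft.ln_mir] at h2
      cases hq : Ft.ps U with
      | nil => rw [hq] at h1; simp at h1
      | cons x L =>
        rw [hq] at h1
        have hL : L = [] := by
          have := congrArg List.length h1
          simpa using this
        subst hL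
        simp at h1
        have hle := Ft.ps_le U x (by rw [hq]; simp)
        refine ⟨x, rfl, ?_⟩
        omega
    · rcases hdd.clc hi hi5 hU e with h1 | ⟨X, h1⟩
      · exact hd _ (h10 h1) e0
      · exact hok'.start X h1
    · apply hdd.cld hi hi5 hUm
      rw [L1C.mir_eq e, Tsq.mir_app, Tsq.mir_node, Tsq.mir_node]
      rfl
    · exact hok'.bad (hdd.cle hi hU e)
    · exact hdd.clf hi hUm (L1C.mir_eq e)
  · have hc4 : 4 ≤ c := by
      obtain ⟨x, hx⟩ := hev
      omega
    have h4 : fc 4 (OddHC.cont w.1) ≤ 1 := by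
      rcases hw1 with e | e
      · rw [e]; exact hdd.four hi
      · rw [e, HM.cont_mir]; exact hdd.four hi
    have u4 : 1 ≤ fc 4 (OddHC.cont U) := fc_pos (by omega) (by omega)
    have r4 : fc 4 (raise (OddHC.cont U)) = fc 4 (OddHC.cont U) := fc_raise (by omega) (by omega)
    have cc : fc 4 (OddHC.cont (H1.ch c)) = 1 := by rw [fc_ch (by omega), if_pos hc4]
    have cc1 : fc 4 (OddHC.cont (H1.ch (c + 1))) = 1 := by rw [fc_ch (by omega), if_pos (by omega)]
    rcases ht.words w hw' with e | ⟨-, e | e⟩
    · have e1 : OddHC.cont w.1 = OddHC.cont (H1.ch c) + (raise (OddHC.cont U) + OddHC.cont .nil) := by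
        rw [e]
        change OddHC.cont (app (H1.ch c) (U △ .nil)) = _
        rw [cont_app, cont_node]
      rw [e1, fc_add, fc_add, r4, cc] at h4
      omega
    · have e1 : OddHC.cont w.1 = OddHC.cont U + (raise (OddHC.cont .nil) + OddHC.cont (H1.ch c)) := by
        rw [e]
        change OddHC.cont (app U (.nil △ H1.ch c)) = _
        rw [cont_app, cont_node]
      rw [e1, fc_add, fc_add, cc] at h4
      omega
    · have e1 : OddHC.cont w.1 = OddHC.cont (H1.ch (c + 1)) + OddHC.cont U := by
        rw [e]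
        change OddHC.cont (app (H1.ch (c + 1)) U) = _
        exact cont_app _ _
      rw [e1, fc_add, cc1] at h4
      omega

end Pool.OddHC
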