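import Pool.Agent.Work.MP_8f87b2_h19.L1D

/-!
# MP_8f87b2_co: row W-Cr-L1

`TyL1.disj_Cr` : a gadget of type L1 and a right content link have no common word (no side condition).
-/

set_option autoImplicit false
set_option linter.unusedSimpArgs false
set_option linter.unusedVariables false

namespace Pool.OddHC

open BinaryTree Pool.Agent.Work.MP_8f87b2_co

namespace L1C

open J

variable {k n : ℕ} {R B S U : BinaryTree Unit}

theorem fc_pos {c : ℕ} {A : BinaryTree Unit} (h : c ≤ ht A) (h0 : 1 ≤ ht A) : 1 ≤ fc c (cont A) := by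
  have hne : cont A ≠ 0 := by
    intro h2
    rw [ht_eq, h2] at h0
    exact absurd h0 (by simp)
  have h1 := sup_mem hne
  rw [ht_eq] at h
  unfold fc
  rw [Nat.succ_le_iff, Multiset.card_pos_iff_exists_mem]
  exact ⟨_, Multiset.mem_filter.2 ⟨h1, h⟩⟩

theorem fc_ch {c d : ℕ} (h : 1 ≤ d) : fc c (cont (H1.ch d)) = if c ≤ d then 1 else 0 := by
  rw [cont_ch h, fc_single]

theorem ht_ch' (d : ℕ) : ht (H1.ch d) = d := H1.ch_ht d

/-- the parts of case A -/
theorem CA.facts (h : CA n R B S) : B ≠ .nil ∧ B ≠ l1 ∧ B ≠ l1 △ .nil ∧ app B l1 ≠ .nil ∧ app B l1 ≠ l1 ∧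
    app B l1 ≠ l1 △ .nil ∧ (∀ X ∈ cs S, X ≠ .nil) ∧ S ≠ .nil := by
  obtain ⟨t, hB, _⟩ := h.csB
  obtain ⟨D, u, hD, hS⟩ := h.csS
  have hl : (cs B).length = t + 1 := by rw [hB]; simp
  refine ⟨?_, ?_, ?_, ?_, ?_, ?_, ?_, ?_⟩
  · rintro rfl
    simp at hl
  · rintro rfl
    have h1 := congrArg List.reverse hB
    simp at h1
  · rintro rfl
    have h1 := congrArg List.reverse hB
    simp at h1
  · intro e
    have := congrArg (fun t => (cs t).length) e
    simp at this
  · intro e
    have := congrArg (fun t => (cs t).length) e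
    simp [hl] at this
  · intro e
    have := congrArg (fun t => (cs t).length) e
    simp [hl] at this
  · intro X hX
    rw [hS, List.mem_cons] at hX
    rcases hX with rfl | hX
    · exact hD.nil_ne
    · rw [List.eq_of_mem_replicate hX]
      simp
  · rintro rfl
    simp at hS

/-- a word with two parts at least 3 -/
theorem HD.three (h : HD n R B S) {i : ℕ} (hi : i < 20) (h2 : 2 ≤ fc 3 (cont (H1.W R .nil B S i))) :
    (i = 13 ∨ i = 16 ∨ i = 18 ∨ i = 19) ∧ CA n R B S := by
  rcases h.one3 hi with h1 | h1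
  · omega
  · exact h1

theorem cs_ch3 : cs (H1.ch 3) = [l1 △ .nil] := rfl

/-- the second component is `()`: not in `S X` with `S` of case A -/
theorem CA.snd (h : CA n R B S) {X : BinaryTree Unit} {L L' : List (BinaryTree Unit)} {Y : BinaryTree Unit} (hY : Y ≠ .nil)
    (e : cs S ++ Y :: L = X :: .nil :: L') : False := by
  have hf := h.facts.2.2.2.2.2.2.1
  obtain ⟨D, u, hD, hS⟩ := h.csS
  rw [hS] at e
  cases u with
  | zero =>
    simp at e
    exact hY e.2.1
  | succ u => simp [List.replicate_succ] at e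

theorem HD.cr (h : HD n R B S) {i : ℕ} (hi : i < 20) {c : ℕ} (hc : 3 ≤ c) (hU : c + 1 ≤ ht U) :
    H1.W R .nil B S i ≠ U △ H1.ch c ∧ H1.W R .nil B S i ≠ app (H1.ch c) (U △ .nil) ∧
    H1.W R .nil B S i ≠ app U (H1.ch c △ .nil) ∧ H1.W R .nil B S i ≠ H1.ch c △ U ∧
    H1.W R .nil B S i ≠ app (H1.ch c) (.nil △ U) ∧ H1.W R .nil B S i ≠ app U (.nil △ H1.ch c) := by
  have h4 := h.four hi
  have u3 : 1 ≤ fc 3 (cont U) := fc_pos (by omega) (by omega)
  have u4 : 1 ≤ fc 4 (cont U) := fc_pos (by omega) (by omega)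
  have hUn : U ≠ .nil := by
    rintro rfl
    rw [ht] at hU
    omega
  have r3 : fc 3 (raise (cont U)) = fc 3 (cont U) := fc_raise (by omega) (by omega)
  have r4 : fc 4 (raise (cont U)) = fc 4 (cont U) := fc_raise (by omega) (by omega)
  have q3 : ∀ w : BinaryTree Unit, H1.W R .nil B S i = w → 2 ≤ fc 3 (cont w) →
      (fc 4 (cont w) ≤ 1 ∧ (i = 13 ∨ i = 16 ∨ i = 18 ∨ i = 19) ∧ CA n R B S) := by
    rintro w rfl h5
    exact ⟨h4, h.three hi h5⟩
  have n0 : fc 3 (raise (cont (BinaryTree.nil : BinaryTree Unit))) = 0 := rfl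
  have n4 : fc 4 (raise (cont (BinaryTree.nil : BinaryTree Unit))) = 0 := rfl
  have z0 : fc 3 (cont (BinaryTree.nil : BinaryTree Unit)) = 0 := rfl
  have z4 : fc 4 (cont (BinaryTree.nil : BinaryTree Unit)) = 0 := rfl
  have cc3 : fc 3 (cont (H1.ch c)) = 1 := by rw [fc_ch (by omega), if_pos hc]
  have cc4 : fc 4 (cont (H1.ch (c + 1))) = 1 := by rw [fc_ch (by omega), if_pos (by omega)]
  have cc4' : 4 ≤ c → fc 4 (cont (H1.ch c)) = 1 := by intro h5; rw [fc_ch (by omega), if_pos h5]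
  have e0 : cont (U △ H1.ch c) = raise (cont U) + cont (H1.ch c) := cont_node _ _
  have e1 : cont (app (H1.ch c) (U △ .nil)) = cont (H1.ch c) + (raise (cont U) + cont .nil) := by
    rw [cont_app, cont_node]
  have e2 : cont (app U (H1.ch c △ .nil)) = cont U + cont (H1.ch (c + 1)) := cont_app _ _
  have e3 : cont (H1.ch c △ U) = cont (H1.ch (c + 1)) + cont U := by
    change cont (app (H1.ch (c + 1)) U) = _
    exact cont_app _ _
  have e4 : cont (app (H1.ch c) (.nil △ U)) = cont (H1.ch c) + (raise (cont .nil) + cont U) := by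
    rw [cont_app, cont_node]
  have e5 : cont (app U (.nil △ H1.ch c)) = cont U + (raise (cont .nil) + cont (H1.ch c)) := by
    rw [cont_app, cont_node]
  refine ⟨?_, ?_, ?_, ?_, ?_, ?_⟩
  · intro e
    obtain ⟨h5, h6, hA⟩ := q3 _ e (by rw [e0, fc_add, r3]; omega)
    rw [e0, fc_add, r4] at h5
    obtain rfl : c = 3 := by
      by_contra h7
      have := cc4' (by omega)
      omega
    obtain ⟨b1, b2, b3, b4, b5, b6, b7, b8⟩ := hA.facts
    rcases h6 with rfl | rfl | rfl | rfl <;> obtain ⟨h7, h8, h9⟩ := cs_fb e <;>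
      simp only [H1.W, app, cs_app, cs_node, cs_nil, cs_ch3, List.reverse_append, List.reverse_cons, List.reverse_nil,
        List.nil_append, List.cons_append, List.cons.injEq, List.length_append, List.length_cons, List.length_nil] at h7 h8 h9
    · exact b6 h8.1
    · simp at h8
    · exact hUn h7.1.symm
    · omega
  · intro e
    obtain ⟨h5, h6, hA⟩ := q3 _ e (by rw [e1, fc_add, fc_add, r3]; omega)
    rw [e1, fc_add, fc_add, r4] at h5
    obtain rfl : c = 3 := by
      by_contra h7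
      have := cc4' (by omega)
      omega
    obtain ⟨b1, b2, b3, b4, b5, b6, b7, b8⟩ := hA.facts
    rcases h6 with rfl | rfl | rfl | rfl <;> obtain ⟨h7, h8, h9⟩ := cs_fb e <;>
      simp only [H1.W, app, cs_app, cs_node, cs_nil, cs_ch3, List.reverse_append, List.reverse_cons, List.reverse_nil,
        List.nil_append, List.cons_append, List.cons.injEq, List.length_append, List.length_cons, List.length_nil] at h7 h8 h9
    · have h10 := congrArg ht h8.1
      have h11 : ht (app B l1) = 2 := by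
        rw [ht_app, hA.Bht]
        rfl
      rw [h11] at h10
      omega
    · exact hUn h8.1.symm
    · simp at h7
    · omega
  · intro e
    rw [e, e2, fc_add, cc4] at h4
    omega
  · intro e
    rw [e, e3, fc_add, cc4] at h4
    omega
  · intro e
    obtain ⟨h5, h6, hA⟩ := q3 _ e (by rw [e4, fc_add, fc_add]; omega)
    rw [e4, fc_add, fc_add] at h5
    obtain rfl : c = 3 := by
      by_contra h7
      have := cc4' (by omega)
      omega
    obtain ⟨b1, b2, b3, b4, b5, b6, b7, b8⟩ := hA.facts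
    rcases h6 with rfl | rfl | rfl | rfl <;> obtain ⟨h7, h8, h9⟩ := cs_fb e <;>
      simp only [H1.W, app, cs_app, cs_node, cs_nil, cs_ch3, List.reverse_append, List.reverse_cons, List.reverse_nil,
        List.nil_append, List.cons_append, List.cons.injEq, List.length_append, List.length_cons, List.length_nil] at h7 h8 h9
    · exact hA.snd b4 h7
    · exact hA.snd b1 h7
    · simp at h7
    · omega
  · intro e
    obtain ⟨h5, h6, hA⟩ := q3 _ e (by rw [e5, fc_add, fc_add]; omega)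
    rw [e5, fc_add, fc_add] at h5
    obtain rfl : c = 3 := by
      by_contra h7
      have := cc4' (by omega)
      omega
    obtain ⟨b1, b2, b3, b4, b5, b6, b7, b8⟩ := hA.facts
    rcases h6 with rfl | rfl | rfl | rfl <;> obtain ⟨h7, h8, h9⟩ := cs_fb e <;>
      simp only [H1.W, app, cs_app, cs_node, cs_nil, cs_ch3, List.reverse_append, List.reverse_cons, List.reverse_nil,
        List.nil_append, List.cons_append, List.cons.injEq, List.length_append, List.length_cons, List.length_nil] at h7 h8 h9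
    · exact b6 h8.1
    · simp at h8
    · exact b3 h8.1
    · omega

theorem mir_ch (c : ℕ) : Tsq.mir (H1.ch c) = H1.ch c := by
  induction c with
  | zero => rfl
  | succ c ih =>
    change Tsq.mir (H1.ch c △ .nil) = H1.ch c △ .nil
    rw [Tsq.mir_node, ih]
    rfl

theorem mir_eq {A C : BinaryTree Unit} (h : Tsq.mir A = C) : A = Tsq.mir C := by
  rw [← h, Tsq.mir_mir]

end L1C

open L1C L1 J

variable {k : ℕ} {F F' : Set (Cyc k)} {g g' : DG k}

/-- a word of a gadget of type L1: a word of the tree with the hidden bead, right or mirrored -/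
theorem TyL1.word (h : TyL1 F g) {w : X k} (hw : w ∈ g.B) :
    ∃ (n : ℕ) (R B S : BinaryTree Unit) (i : ℕ), L1C.HD n R B S ∧ i < 20 ∧ i ≠ 5 ∧ (i = 10 → cyc w ∈ F) ∧
      (w.1 = H1.W R .nil B S i ∨ w.1 = Tsq.mir (H1.W R .nil B S i)) := by
  rcases h with ⟨n, Φ, w0, hb, hr, rfl, rfl⟩ | ⟨n, Φ, w0, hb, hr, rfl, rfl⟩
  · obtain ⟨i, hi, h5, rfl⟩ := mem_gadJ.1 hw
    refine ⟨n, _, _, _, i, L1C.HD_RH hb.hn Φ hb.one, hi, h5, ?_, Or.inl (L1.xw_val hb.hn hb.hk w0 hi)⟩
    rintro rfl
    left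
    exact cyc_eq.2 (L1.same10 hb.hn hb.hk w0).symm
  · obtain ⟨i, hi, h5, rfl⟩ := mem_gadJM.1 hw
    refine ⟨n, _, _, _, i, L1C.HD_RH hb.hn (rf Φ) (by rw [rf_sum]; exact hb.one), hi, h5, ?_,
      Or.inr (L1.xm_val hb.hn hb.hk w0 hi)⟩
    rintro rfl
    left
    exact cyc_eq.2 (L1.same10M hb.hn hb.hk w0).symm

/-- **row W-Cr-L1** -/
theorem TyL1.disj_Cr (h : TyL1 F g) (h' : TyCr F' g') : ∀ w ∈ g.B, w ∉ g'.B := by
  intro w hw hw'
  obtain ⟨c, U, hc, hU, hodd, ht⟩ := h'
  have hc3 : 3 ≤ c := by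
    obtain ⟨x, hx⟩ := hodd
    omega
  obtain ⟨n, R, B, S, i, hd, hi, _, _, hw1⟩ := h.word hw
  have hUm : c + 1 ≤ OddHC.ht (Tsq.mir U) := by rw [J.ht_mir]; exact hU
  obtain ⟨a1, _, a3, _, a5, _⟩ := hd.cr hi hc3 hU
  obtain ⟨_, m2, _, m4, _, m6⟩ := hd.cr hi hc3 hUm
  rcases ht.words w hw' with e | ⟨-, e | e⟩ <;> rcases hw1 with hw1 | hw1 <;> rw [hw1] at e
  · exact a1 e
  · apply m2
    rw [L1C.mir_eq e]
    change Tsq.mir (U △ H1.ch c) = _
    rw [Tsq.mir_node, L1C.mir_ch]
  · exact a3 e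
  · apply m4
    rw [L1C.mir_eq e]
    change Tsq.mir (app U (H1.ch (c + 1))) = _
    rw [Tsq.mir_app, L1C.mir_ch]
    rfl
  · exact a5 e
  · apply m6
    rw [L1C.mir_eq e]
    change Tsq.mir (app (H1.ch c) (.nil △ U)) = _
    rw [Tsq.mir_app, L1C.mir_ch, Tsq.mir_node, app_assoc']
    rfl

end Pool.OddHC
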