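import Pool.Agent.Work.MP_8f87b2_h19.InL1
import Pool.Agent.Work.MP_8f87b2_h40.H3c

/-!
# MP_8f87b2_co: `ClI` for the shapes of the left content links of section 5

`ClI_ShC` : the shapes `Hole2.ShC n a m`, `n ≥ 2`. `ClI_pk` : `([s-1] ()^q)`.
-/

set_option autoImplicit false
set_option linter.unusedSimpArgs false
set_option linter.unusedVariables false

namespace Pool.OddHC

open Finset Equiv BinaryTree Pool.Agent.Work.MP_8f87b2_co

namespace Ft

open J (l1)

variable {n a m p : ℕ} {U : BinaryTree Unit}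

/-- beads in one gap -/
theorem ClI.of_same (hU : ps U = List.replicate m p) (h2 : m = 2 → p + 3 ≠ ln U)
    (h1 : m = 1 → p + 3 ≠ ln U ∧ p + 5 ≠ ln U ∧ (p + 4 = ln U → ∃ L, wd (rd U) = L ++ [true, false])) : ClI U := by
  have hm : ∀ q, q ∈ ps U → q = p := by
    intro q hq
    rw [hU] at hq
    exact List.eq_of_mem_replicate hq
  have hl : (ps U).length = m := by rw [hU, List.length_replicate]
  refine ⟨?_, ?_, ?_, ?_, ?_⟩
  · intro _ q r hq hr hqr
    have := hm q hq
    have := hm r hr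
    omega
  · rintro _ ⟨L, M, _, h3, h4⟩
    have := hm _ h3
    have := hm _ h4
    omega
  · rintro _ ⟨L, M, _, h3, h4⟩
    rw [mem_mir] at h3 h4
    have := hm _ h3.2
    have := hm _ h4.2
    omega
  · intro h3 h4 q hq
    have h5 := hm q hq
    have h6 := h2 (by omega)
    have h7 := h4 q hq
    omega
  · intro q hq
    have h3 : m = 1 := by rw [← hl, hq]; rfl
    obtain rfl : q = p := hm q (by rw [hq]; simp)
    exact h1 h3

/-- the beads in the last gap -/
theorem ClI.of_last (hU : ps U = List.replicate m (ln U)) : ClI U :=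
  ClI.of_same hU (fun _ => by omega) (fun _ => ⟨by omega, by omega, fun h => by omega⟩)

/-- two beads in neighbouring gaps, a down step between -/
theorem ClI.of_down (h : ps U = [p, p + 1]) {L M : List Bool} (hw : wd (rd U) = L ++ false :: M) (hL : L.length = p)
    (hm : ∀ L' M', wd (rd (Tsq.mir U)) = L' ++ true :: true :: false :: M' → L'.length + (p + 1) ≠ ln U) : ClI U := by
  have hl : (ps U).length = 2 := by rw [h]; rfl
  have hmem : ∀ q, q ∈ ps U → q = p ∨ q = p + 1 := by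
    intro q hq
    rw [h] at hq
    simpa using hq
  have hle := ps_le U (p + 1) (by rw [h]; simp)
  refine ⟨?_, ?_, ?_, ?_, ?_⟩
  · intro _ q r hq hr hqr
    have := hmem q hq
    have := hmem r hr
    omega
  · rintro _ ⟨L', M', h2, h3, h4⟩
    have := hmem _ h3
    have := hmem _ h4
    have h5 : L'.length = L.length := by omega
    rw [hw] at h2
    have h6 := (List.append_inj h2 h5.symm).2
    simp at h6
  · rintro _ ⟨L', M', h2, h3, h4⟩
    rw [mem_mir] at h3 h4
    have := hmem _ h3.2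
    have := hmem _ h4.2
    exact hm L' M' h2 (by omega)
  · intro _ h4 q hq
    have h5 := h4 p (by rw [h]; simp)
    have h6 := h4 (p + 1) (by rw [h]; simp)
    omega
  · intro q hq
    rw [hq] at hl
    simp at hl

/-- two beads in neighbouring gaps, an up step between and a down step after -/
theorem ClI.of_up (h : ps U = [p, p + 1]) {L M : List Bool} (hw : wd (rd U) = L ++ true :: false :: M) (hL : L.length = p)
    {L1 M1 : List Bool} (hm : wd (rd (Tsq.mir U)) = L1 ++ false :: M1) (hL1 : L1.length + (p + 1) = ln U) : ClI U := by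
  have hl : (ps U).length = 2 := by rw [h]; rfl
  have hmem : ∀ q, q ∈ ps U → q = p ∨ q = p + 1 := by
    intro q hq
    rw [h] at hq
    simpa using hq
  have hle := ps_le U (p + 1) (by rw [h]; simp)
  refine ⟨?_, ?_, ?_, ?_, ?_⟩
  · intro _ q r hq hr hqr
    have := hmem q hq
    have := hmem r hr
    omega
  · rintro _ ⟨L', M', h2, h3, h4⟩
    have := hmem _ h3
    have := hmem _ h4
    have h5 : L'.length = L.length := by omega
    rw [hw] at h2
    have h6 := (List.append_inj h2 h5.symm).2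
    simp at h6
  · rintro _ ⟨L', M', h2, h3, h4⟩
    rw [mem_mir] at h3 h4
    have := hmem _ h3.2
    have := hmem _ h4.2
    have h5 : L'.length = L1.length := by omega
    rw [hm] at h2
    have h6 := (List.append_inj h2 h5.symm).2
    simp at h6
  · intro _ h4 q hq
    have h5 := h4 p (by rw [h]; simp)
    have h6 := h4 (p + 1) (by rw [h]; simp)
    omega
  · intro q hq
    rw [hq] at hl
    simp at hl

/-- neither one nor two beads -/
theorem ClI.of_len (h1 : (ps U).length ≠ 1) (h2 : (ps U).length ≠ 2) : ClI U :=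
  ⟨fun h => absurd h h2, fun h => absurd h h2, fun h => absurd h h2, fun h => absurd h h2,
    fun p h => absurd (by rw [h]; rfl) h1⟩

/-! ### The shapes -/

theorem ch_ne' (n : ℕ) : H1.ch (n + 1) ≠ .nil := by
  change H1.ch n △ .nil ≠ .nil
  simp

theorem ch_inf (n : ℕ) : H1.ch (n + 2) = inf (H1.ch (n + 1)) := by
  induction n with
  | zero => rfl
  | succ n ih =>
    change H1.ch (n + 2) △ .nil = inf (H1.ch (n + 1) △ .nil)
    rw [inf_node, ih, inf1_eq (ch_ne' n)]
    rfl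

theorem numNodes_ch (n : ℕ) : (H1.ch n).numNodes = n := by
  induction n with
  | zero => rfl
  | succ n ih =>
    change (H1.ch n △ .nil).numNodes = n + 1
    simp [BinaryTree.numNodes, ih]

theorem rd_ch (n : ℕ) : rd (H1.ch (n + 2)) = H1.ch (n + 1) := by rw [ch_inf, rd_inf]

theorem ps_inf9 (s : BinaryTree Unit) : ps (inf s) = [] := by
  rw [← List.length_eq_zero_iff, ps_length]
  have h : OddHC.cont (inf s) = (OddHC.cont s).map (· + 1) := cont_inf _
  rw [h, Multiset.count_eq_zero, Multiset.mem_map]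
  rintro ⟨x, hx, e⟩
  have h1 : x = 0 := by omega
  rw [h1] at hx
  exact absurd (cont_pos s 0 hx) (by norm_num)

theorem ps_ch (n : ℕ) : ps (H1.ch (n + 2)) = [] := by rw [ch_inf, ps_inf9]

theorem ln_ch (n : ℕ) : ln (H1.ch (n + 2)) = 2 * n + 2 := by
  rw [ln_eq, rd_ch, numNodes_ch]
  ring

theorem rd_sq (a : ℕ) : rd (S5.sq a) = lp a := by
  unfold S5.sq lp
  rw [← Ring1.inf_lp, rd_inf]

theorem ps_sq (a : ℕ) : ps (S5.sq a) = [] := by
  unfold S5.sq
  rw [← Ring1.inf_lp, ps_inf9]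

theorem ln_sqr (a : ℕ) : ln (S5.sq a) = 2 * a := by
  rw [ln_eq, rd_sq, lp_num]

theorem rd_lp (m : ℕ) : rd (lp m) = .nil := by
  induction m with
  | zero => rfl
  | succ m ih =>
    change rd (.nil △ lp m) = .nil
    rw [rd_leaf, ih]

theorem ln_lp (m : ℕ) : ln (lp m) = 0 := by
  rw [ln_eq, rd_lp]
  rfl

theorem ps_lp (m : ℕ) : ps (lp m) = List.replicate m 0 := by
  induction m with
  | zero => rfl
  | succ m ih =>
    change ps (.nil △ lp m) = _
    rw [ps_leaf, ih]
    rfl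

theorem wd_sq (a : ℕ) : wd (rd (S5.sq (a + 1))) = wd (lp a) ++ [true, false] := by
  rw [rd_sq]
  induction a with
  | zero => rfl
  | succ a ih =>
    change true :: false :: wd (lp (a + 1)) = true :: false :: wd (lp a) ++ [true, false]
    rw [ih]
    rfl

/-- `V ()^m` -/
theorem ClI.app_lp {V : BinaryTree Unit} (hV : ps V = []) : ClI (app V (lp m)) := by
  apply ClI.of_last (m := m)
  rw [ps_app, hV, ln_app, ps_lp, ln_lp]
  simp

/-- `V () (()) (())` -/
theorem ClI.app_sq2 {V : BinaryTree Unit} (hV : ps V = []) : ClI (app (app V (lp 1)) (S5.sq 2)) := by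
  have h1 : ln (app (app V (lp 1)) (S5.sq 2)) = ln V + 4 := by
    rw [ln_app, ln_app, ln_lp, ln_sqr]
  refine ClI.of_same (m := 1) (p := ln V) ?_ (fun h => absurd h (by norm_num)) (fun _ => ?_)
  · rw [ps_app, ps_app, hV, ps_sq, ps_lp]
    simp
  · rw [h1]
    refine ⟨by omega, by omega, fun _ => ?_⟩
    exact ⟨wd (rd (app V (lp 1))) ++ wd (lp 1), by rw [rd_app, wd_app, wd_sq, List.append_assoc]⟩

theorem ClI_gE (n a m : ℕ) : ClI (S5.gE n a m) := by
  unfold S5.gE
  exact ClI.app_lp (by rw [ps_app, ps_ch, ps_sq]; rfl)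

theorem ps_pk (hn : 1 ≤ n) (b : ℕ) : ps (app (H1.ch (n + 1)) (H1.ch 2) △ S5.sq b) = [] := by
  obtain ⟨n, rfl⟩ : ∃ n', n = n' + 1 := ⟨n - 1, by omega⟩
  have h1 : 0 < ln (app (H1.ch (n + 1 + 1)) (H1.ch 2)) := by
    rw [ln_app, ln_ch]
    omega
  rw [ps_node h1, ps_app, ps_sq, ps_ch, ps_ch 0]
  rfl

theorem ClI_gO (hn : 1 ≤ n) (a m : ℕ) : ClI (S5.gO n a m) := by
  unfold S5.gO
  exact ClI.app_lp (ps_pk hn _)

theorem ClI_gE1 (n a : ℕ) : ClI (S5.gE1 n a) := by
  unfold S5.gE1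
  exact ClI.app_sq2 (by rw [ps_app, ps_ch, ps_sq]; rfl)

theorem ClI_gO1 (hn : 1 ≤ n) (a : ℕ) : ClI (S5.gO1 n a) := by
  unfold S5.gO1
  exact ClI.app_sq2 (ps_pk hn _)

theorem ClI_gO2 (hn : 1 ≤ n) : ClI (S5.gO2 n) := by
  obtain ⟨n, rfl⟩ : ∃ n', n = n' + 1 := ⟨n - 1, by omega⟩
  unfold S5.gO2
  have l2 : ln (lp 2 △ .nil) = 2 := rfl
  have p2 : ps (lp 2 △ .nil) = [1] := rfl
  have h0 : ln (app (H1.ch (n + 1 + 1)) (lp 2 △ .nil)) = 2 * n + 4 := by
    rw [ln_app, ln_ch, l2]
  have h1 : 0 < ln (app (H1.ch (n + 1 + 1)) (lp 2 △ .nil)) := by omega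
  have h2 : ln (app (H1.ch (n + 1 + 1)) (lp 2 △ .nil) △ S5.sq 1) = 2 * n + 8 := by
    rw [ln_node' h1, h0, ln_sqr]
  refine ClI.of_same (m := 1) (p := 2 * n + 4) ?_ (fun h => absurd h (by norm_num)) (fun _ => ?_)
  · rw [ps_node h1, ps_app, ps_sq, ps_ch, ln_ch, p2]
    simp
    omega
  · rw [h2]
    refine ⟨by omega, by omega, fun _ => ?_⟩
    have h3 : app (H1.ch (n + 1 + 1)) (lp 2 △ .nil) ≠ .nil := by
      intro e
      rw [e, ln_nil] at h1
      omega
    refine ⟨true :: (wd (rd (app (H1.ch (n + 1 + 1)) (lp 2 △ .nil))) ++ [false]), ?_⟩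
    rw [rd_node h3]
    change true :: (wd _ ++ false :: wd (rd (S5.sq 1))) = _
    rw [wd_sq 0]
    simp
    rfl

theorem ClI_gP (hm : 2 ≤ m) (n a : ℕ) : ClI (S5.gP n a m) := by
  unfold S5.gP
  refine ClI.of_same (m := m) (p := 2 * n + 2) ?_ (fun _ => ?_) (fun h => absurd h (by omega))
  · rw [ps_app, ps_app, ps_ch, ps_sq, ps_lp, ln_ch]
    simp
  · rw [ln_app, ln_app, ln_ch, ln_sqr, ln_lp]
    omega

/-- `([s-1] ()^q)` -/
theorem ClI_pk (hn : 1 ≤ n) (q : ℕ) : ClI (app (H1.ch (n + 1)) (lp q) △ .nil) := by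
  obtain ⟨n, rfl⟩ : ∃ n', n = n' + 1 := ⟨n - 1, by omega⟩
  have h0 : ln (app (H1.ch (n + 1 + 1)) (lp q)) = 2 * n + 2 := by
    rw [ln_app, ln_ch, ln_lp]
  have h1 : 0 < ln (app (H1.ch (n + 1 + 1)) (lp q)) := by omega
  have h2 : ln (app (H1.ch (n + 1 + 1)) (lp q) △ .nil) = 2 * n + 4 := by
    rw [ln_node' h1, h0, ln_nil]
  refine ClI.of_same (m := q) (p := 2 * n + 3) ?_ (fun _ => by omega) (fun _ => ⟨by omega, by omega, fun h => by omega⟩)
  rw [ps_node h1, ps_app, ps_ch, ps_lp, ln_ch, ps_nil]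
  simp

theorem wd_ch (n : ℕ) : wd (H1.ch n) = List.replicate n true ++ List.replicate n false := by
  induction n with
  | zero => rfl
  | succ n ih =>
    change true :: (wd (H1.ch n) ++ [false]) = _
    rw [ih, List.replicate_succ, List.replicate_succ' (n := n) (a := false)]
    simp

theorem mir_ch9 (n : ℕ) : Tsq.mir (H1.ch n) = H1.ch n := L1C.mir_ch n

theorem mir_lp (a : ℕ) : Tsq.mir (lp a) = lp a := by
  induction a with
  | zero => rfl
  | succ a ih =>
    have h1 : ∀ a, app (lp a) (.nil △ .nil) = .nil △ lp a := by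
      intro a
      induction a with
      | zero => rfl
      | succ a ih =>
        change .nil △ app (lp a) (.nil △ .nil) = _
        rw [ih]
        rfl
    change Tsq.mir (.nil △ lp a) = .nil △ lp a
    rw [Tsq.mir_node, ih]
    exact h1 a

theorem wd_lp_len (a : ℕ) : (wd (lp a)).length = 2 * a := by
  rw [wd_length, lp_num]

theorem wd_lp_succ (a : ℕ) : wd (lp (a + 1)) = wd (lp a) ++ [true, false] := by
  rw [← wd_sq, rd_sq]

theorem ClI_gM (hn : 2 ≤ n) (a : ℕ) : ClI (S5.gM n a 2) := by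
  obtain ⟨n, rfl⟩ : ∃ n', n = n' + 2 := ⟨n - 2, by omega⟩
  unfold S5.gM
  have hA : ln (app (H1.ch (n + 2 + 1)) (lp 1)) = 2 * n + 4 := by
    rw [ln_app, ln_ch, ln_lp]
    ring
  have hA0 : 0 < ln (app (H1.ch (n + 2 + 1)) (lp 1)) := by omega
  have hAn : app (H1.ch (n + 2 + 1)) (lp 1) ≠ .nil := by
    intro e
    rw [e, ln_nil] at hA0
    omega
  have hl : ln (app (app (H1.ch (n + 2 + 1)) (lp 1) △ lp (2 - 1)) (S5.sq a)) = 2 * n + 6 + 2 * a := by
    rw [ln_app, ln_node' hA0, hA, ln_lp, ln_sqr]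
  have hp : ps (app (app (H1.ch (n + 2 + 1)) (lp 1) △ lp (2 - 1)) (S5.sq a)) = [2 * n + 5, 2 * n + 5 + 1] := by
    rw [ps_app, ps_node hA0, ps_app, ps_ch, ps_sq, ps_lp, hA, ln_ch]
    simp
    omega
  have hr : rd (app (app (H1.ch (n + 2 + 1)) (lp 1) △ lp (2 - 1)) (S5.sq a)) = app (H1.ch (n + 3)) (lp a) := by
    rw [rd_app, rd_node hAn, rd_app, rd_ch, rd_lp, rd_sq, H1.app_nil]
    rfl
  refine ClI.of_down hp (L := true :: wd (H1.ch (n + 2))) (M := wd (lp a)) ?_ ?_ ?_
  · rw [hr, wd_app]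
    change (true :: (wd (H1.ch (n + 2)) ++ [false])) ++ wd (lp a) = _
    simp
  · rw [List.length_cons, wd_length, numNodes_ch]
    ring
  · intro L' M' h1 h2
    rw [rd_mir, hr, Tsq.mir_app, mir_lp, mir_ch9, wd_app, wd_ch] at h1
    rw [hl] at h2
    have h3 := (List.append_inj h1 (by rw [wd_lp_len]; omega)).2
    simp [List.replicate_succ] at h3

theorem ClI_gY {a : ℕ} (ha : 1 ≤ a) (n : ℕ) : ClI (S5.gY n a 2) := by
  obtain ⟨a, rfl⟩ : ∃ a', a = a' + 1 := ⟨a - 1, by omega⟩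
  unfold S5.gY
  have l2 : (lp 2 : BinaryTree Unit) ≠ .nil := by
    change (.nil △ lp 1 : BinaryTree Unit) ≠ .nil
    simp
  have hB : ln (lp 2 △ S5.sq (a + 1 - 1)) = 2 + 2 * a := by
    rw [ln_node l2, ln_lp, ln_sqr]
    omega
  have hl : ln (app (app (H1.ch (n + 2)) (lp (2 - 1))) (lp 2 △ S5.sq (a + 1 - 1))) = 2 * n + 4 + 2 * a := by
    rw [ln_app, ln_app, ln_ch, ln_lp, hB]
    omega
  have hp : ps (app (app (H1.ch (n + 2)) (lp (2 - 1))) (lp 2 △ S5.sq (a + 1 - 1))) = [2 * n + 2, 2 * n + 2 + 1] := by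
    rw [ps_app, ps_app, ps_ch, ps_lp, ps_node' l2, ps_sq, ln_app, ln_ch, ln_lp]
    have h1 : pu (lp 2) = [0] := rfl
    rw [h1]
    simp
    omega
  have hr : rd (app (app (H1.ch (n + 2)) (lp (2 - 1))) (lp 2 △ S5.sq (a + 1 - 1))) = app (H1.ch (n + 1)) (lp (a + 1)) := by
    rw [rd_app, rd_app, rd_node l2, rd_ch, rd_lp, rd_lp, rd_sq, H1.app_nil]
    rfl
  refine ClI.of_up hp (L := wd (H1.ch (n + 1))) (M := wd (lp a)) (L1 := wd (lp a) ++ [true])
    (M1 := wd (H1.ch (n + 1))) ?_ ?_ ?_ ?_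
  · rw [hr, wd_app]
    rfl
  · rw [wd_length, numNodes_ch]
    ring
  · rw [rd_mir, hr, Tsq.mir_app, mir_lp, mir_ch9, wd_app, wd_lp_succ]
    simp
  · rw [hl, List.length_append, wd_lp_len, List.length_singleton]
    omega

theorem ClI_count (h : (OddHC.cont U).count 1 ≠ 1 ∧ (OddHC.cont U).count 1 ≠ 2) : ClI U :=
  ClI.of_len (by rw [ps_length]; exact h.1) (by rw [ps_length]; exact h.2)

/-- **the shapes of section 5** -/
theorem ClI_ShC {S : BinaryTree Unit} {n a m : ℕ} (hn : 2 ≤ n) (ha : 1 ≤ a) (h : Hole2.ShC n a m S) : ClI S := by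
  obtain ⟨h | ⟨rfl, rfl | rfl⟩, _, _⟩ := h
  · have hc := h.cont (by omega) ha
    rcases h with ⟨hm, rfl | rfl | h⟩ | ⟨rfl, h2, rfl | ⟨h3, rfl⟩ | ⟨rfl, rfl⟩⟩
    · exact ClI_gE n a m
    · exact ClI_gO (by omega) a m
    · rcases Nat.lt_or_ge 2 m with h3 | h3
      · apply ClI_count
        have h5 : (OddHC.cont S).count 1 = m := by
          rw [hc, Multiset.count_add, Multiset.count_add, Multiset.count_singleton, Multiset.count_replicate,
            Multiset.count_replicate, if_neg (by omega), if_neg (by omega), if_pos rfl]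
          omega
        omega
      · obtain rfl : m = 2 := by omega
        rcases h with rfl | rfl | rfl
        · exact ClI_gP le_rfl n a
        · exact ClI_gM hn a
        · exact ClI_gY ha n
    · exact ClI_gE1 n a
    · exact ClI_gO1 (by omega) a
    · exact ClI_gO2 (by omega)
  · exact ClI_gE n a 0
  · exact ClI_gO (by omega) a 0

end Ft

end Pool.OddHC
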