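import Pool.Agent.Work.MP_8f87b2_h26.TyL1
import Pool.Agent.Work.MP_8f87b2_h22.JC
import Pool.Agent.Work.MP_8f87b2_h22.JX
import Pool.Agent.Work.MP_8f87b2_h11.RHd

/-!
# MP_8f87b2_co, type L1: components and gaps of the tree with the hidden bead

`HD n R B S` : data of `R = RH n F`, `(S, B) = sq R`. `HD_RH`. `f3` : number of parts at least 3. `HD.three` : a word with two
parts at least 3 has number 13, 16, 18, 19 and `B` is not empty; `HD.four` : at most one part at least 4.
-/

set_option autoImplicit false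

namespace Pool.OddHC

open BinaryTree Pool.Agent.Work.MP_8f87b2_co

namespace L1C

open J

variable {k n : ℕ} {R B S : BinaryTree Unit}

/-- inside of `(()())` -/
abbrev l2 : BinaryTree Unit := .nil △ (.nil △ .nil)

/-- number of parts at least `c` -/
def fc (c : ℕ) (M : Multiset ℕ) : ℕ := (M.filter (c ≤ ·)).card

theorem fc_add (c : ℕ) (M N : Multiset ℕ) : fc c (M + N) = fc c M + fc c N := by
  unfold fc
  rw [Multiset.filter_add, Multiset.card_add]

theorem fc_single (c x : ℕ) : fc c {x} = if c ≤ x then 1 else 0 := by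
  unfold fc
  rw [Multiset.filter_singleton]
  split_ifs <;> rfl

theorem fc_zero (c : ℕ) : fc c 0 = 0 := rfl

theorem fc_rep {c x : ℕ} (h : x < c) (a : ℕ) : fc c (Multiset.replicate a x) = 0 := by
  unfold fc
  rw [Multiset.card_eq_zero, Multiset.filter_eq_nil]
  intro y hy
  rw [Multiset.eq_of_mem_replicate hy]
  omega

/-- a part above the limit is raised -/
theorem fc_raise {c : ℕ} {A : BinaryTree Unit} (h : c ≤ ht A) (h0 : 1 ≤ ht A) :
    fc c (raise (cont A)) = fc c (cont A) := by
  have hne : cont A ≠ 0 := by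
    intro h2
    rw [ht_eq, h2] at h0
    exact absurd h0 (by simp)
  have h1 := sup_mem hne
  rw [ht_eq] at h
  have h2 := Multiset.cons_erase h1
  unfold raise
  conv_rhs => rw [← h2]
  rw [← Multiset.singleton_add, ← Multiset.singleton_add, fc_add, fc_add, fc_single, fc_single,
    if_pos (by omega), if_pos h]

theorem fc_mono {c d : ℕ} (h : c ≤ d) (M : Multiset ℕ) : fc d M ≤ fc c M := by
  unfold fc
  apply Multiset.card_le_card
  rw [Multiset.le_iff_count]
  intro a
  rw [Multiset.count_filter, Multiset.count_filter]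
  split_ifs <;> omega

/-- case A: hidden bead in `B` -/
structure CA (n : ℕ) (R B S : BinaryTree Unit) : Prop where
  lastR : ∃ L, cs R = L ++ [l2]
  csB : ∃ t, cs B = List.replicate t l1 ++ [l2] ∧ cont B = Multiset.replicate (t + 1) 2 + {1}
  csS : ∃ (D : BinaryTree Unit) (u : ℕ), GD D ∧ cs S = D :: List.replicate u l1
  contS : ∃ b, cont S = {n + 2} + Multiset.replicate b 2

/-- case B: `B` empty -/
structure CB (R B S : BinaryTree Unit) : Prop where
  b : B = .nil
  pR : ∃ x, x + 3 = Ft.ln R ∧ Ft.ps R = [x]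
  pS : ∃ y, y + 2 = Ft.ln S ∧ Ft.ps S = [y]
  r6 : 6 ≤ Ft.ln R
  s6 : 6 ≤ Ft.ln S

/-- the data -/
structure HD (n : ℕ) (R B S : BinaryTree Unit) : Prop where
  hn : 1 ≤ n
  hR : ht R = n + 2
  hS : ht S = n + 2
  r3 : fc 3 (cont R) = 1
  s3 : fc 3 (cont S) = 1
  odd : ∃ x, Ft.ps R = [x] ∧ x % 2 = 1
  cas : CA n R B S ∨ CB R B S

theorem fc3_c {a : ℕ} (hn : 1 ≤ n) : fc 3 ({n + 2} + Multiset.replicate a 2 + {1} : Multiset ℕ) = 1 := by
  rw [fc_add, fc_add, fc_single, fc_single, fc_rep (by norm_num), if_pos (by omega)]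
  rfl

theorem HD_RH (hn : 1 ≤ n) (F : ZMod (2 * n + 1) → ℕ) (h1F : 1 ≤ ∑ x, F x) :
    HD n (L1.RH n F) (Tsq.sq (L1.RH n F)).2 (Tsq.sq (L1.RH n F)).1 := by
  have hW := L1.Wd_RH hn F
  have hnum := L1.rr_num hn F
  have hcR := L1.cont_RH hn F
  have hln := (Ft.Wd_rd hW).2.1
  have hps := Ft.Wd_one hW
  rw [hnum] at hln
  have hG := L1.GR_RH (k := n + 5 + 2 * ∑ x, F x) hn F rfl
  have hS := hG.htS
  rw [L1.ht_RH hn] at hS
  have hcon := hG.cont
  have r3 : fc 3 (cont (L1.RH n F)) = 1 := by
    rw [hcR]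
    exact fc3_c hn
  have odd : ∃ x, Ft.ps (L1.RH n F) = [x] ∧ x % 2 = 1 := by
    refine ⟨_, hps, ?_⟩
    unfold L1.gH
    split_ifs <;> omega
  rcases Nat.eq_zero_or_pos (F (-1)) with h0 | h0
  · have hB := L1.caseB2 hn F h0
    have hWS := L1.caseB1 hn F h0
    have hlnS := (Ft.Wd_rd hWS).2.1
    have hpsS := Ft.Wd_one hWS
    rw [L1.rr_num hn, L1.sum_sub1] at hlnS
    rw [hB, cont_nil, zero_add] at hcon
    refine ⟨hn, L1.ht_RH hn F, hS, r3, by rw [hcon]; exact r3, odd, Or.inr ⟨hB, ?_, ?_, by omega, by omega⟩⟩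
    · refine ⟨_, ?_, hps⟩
      unfold L1.gH
      rw [h0, if_neg (by omega)]
      omega
    · exact ⟨_, by omega, hpsS⟩
  · obtain ⟨hA, hB⟩ := L1.caseA hn F h0
    obtain ⟨F', e1, _⟩ := Ft.RH_A hn F h0
    obtain ⟨t, ht⟩ : ∃ t, F (-1) = t + 1 := ⟨F (-1) - 1, by omega⟩
    have hBe : (Tsq.sq (L1.RH n F)).2 = app (b2 t) (l2 △ .nil) := by
      have a2 := (L1.Wd.inf (lv t .nil)).app L1.Wd.three
      rw [L1.app_lv, Ring1.inf_lp, ← ht] at a2
      refine hB.det (a2.cast rfl ?_ rfl)
      rw [zero_add, Multiset.map_singleton, L1.lv_num', ht]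
      congr 1
      omega
    have hcB : cont (Tsq.sq (L1.RH n F)).2 = Multiset.replicate (t + 1) 2 + {1} := by
      rw [hBe, cont_app, cont_b2]
      have : cont (l2 △ .nil) = {2} + {1} := by decide
      rw [this, Multiset.replicate_succ, ← Multiset.singleton_add]
      abel
    have hle : F (-1) ≤ ∑ x, F x := Finset.single_le_sum (fun x _ => Nat.zero_le (F x)) (Finset.mem_univ (-1))
    obtain ⟨b, hb⟩ := Nat.exists_eq_add_of_le hle
    have hcS : cont (Tsq.sq (L1.RH n F)).1 = {n + 2} + Multiset.replicate b 2 := by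
      rw [hcB, hcR, hb, ht, Multiset.replicate_add (t + 1) b] at hcon
      have h2 : (Multiset.replicate (t + 1) 2 + {1}) + cont (Tsq.sq (L1.RH n F)).1 =
          (Multiset.replicate (t + 1) 2 + {1}) + ({n + 2} + Multiset.replicate b 2) := by
        rw [hcon]
        abel
      exact add_left_cancel h2
    refine ⟨hn, L1.ht_RH hn F, hS, r3, ?_, odd, Or.inl ⟨⟨cs (Ring1.RF n F'), ?_⟩, ⟨t, ?_, hcB⟩, ?_, ⟨b, hcS⟩⟩⟩
    · rw [hcS, fc_add, fc_single, fc_rep (by norm_num), if_pos (by omega)]
    · rw [e1, cs_app]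
      rfl
    · rw [hBe, cs_app, cs_b2]
      rfl
    · obtain ⟨D, D', h1, h2, h3⟩ := sh_RF (k := n + 4 + 2 * ∑ x, F x) hn F rfl
      refine ⟨D', F (-2), h1.gD', ?_⟩
      have h4 := h1.sq
      rw [h2] at h4
      rw [hA, h4, cs_RR]
      rfl

/-! ### Contents of the words -/

theorem ht_l1 : ht l1 = 1 := rfl

theorem HD.htB (h : HD n R B S) : B = .nil ∨ (CA n R B S) := by
  rcases h.cas with h1 | h1
  · exact Or.inr h1
  · exact Or.inl h1.b

theorem CA.Bht (h : CA n R B S) : ht B = 2 := by
  obtain ⟨t, _, h2⟩ := h.csB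
  rw [ht_eq, h2]
  apply le_antisymm
  · refine Multiset.sup_le.2 ?_
    intro x hx
    rw [Multiset.mem_add, Multiset.mem_singleton] at hx
    rcases hx with hx | hx
    · rw [Multiset.eq_of_mem_replicate hx]
    · omega
  · exact Multiset.le_sup (Multiset.mem_add.2 (Or.inl (Multiset.mem_replicate.2 ⟨by omega, rfl⟩)))

theorem CA.b3 (h : CA n R B S) : fc 3 (cont B) = 0 := by
  obtain ⟨t, _, h2⟩ := h.csB
  rw [h2, fc_add, fc_rep (by norm_num), fc_single]
  rfl

/-- number 13, 16, 18, 19 and case A, or one part at least 3 -/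
theorem HD.one3 (h : HD n R B S) {i : ℕ} (hi : i < 20) :
    fc 3 (cont (H1.W R .nil B S i)) = 1 ∨ ((i = 13 ∨ i = 16 ∨ i = 18 ∨ i = 19) ∧ CA n R B S) := by
  have hn := h.hn
  have hR := h.hR
  have hS := h.hS
  have r3 := h.r3
  have s3 := h.s3
  have g0 : fc 3 (raise (cont (BinaryTree.nil : BinaryTree Unit))) = 0 := by rfl
  have g1 : fc 3 (raise (cont l1)) = 0 := by rfl
  have c0 : fc 3 (cont (BinaryTree.nil : BinaryTree Unit)) = 0 := rfl
  have h0 : ht (BinaryTree.nil : BinaryTree Unit) = 0 := rfl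
  have cn : ∀ A C : BinaryTree Unit, 3 ≤ ht A → fc 3 (cont (A △ C)) = fc 3 (cont A) + fc 3 (cont C) := by
    intro A C hA
    rw [cont_node, fc_add, fc_raise hA (by omega)]
  have ca : ∀ A C : BinaryTree Unit, fc 3 (cont (app A C)) = fc 3 (cont A) + fc 3 (cont C) := by
    intro A C
    rw [cont_app, fc_add]
  have cl : ∀ C : BinaryTree Unit, fc 3 (cont (.nil △ C)) = fc 3 (cont C) := by
    intro C
    rw [cont_node, fc_add, g0, zero_add]
  have cl1 : ∀ C : BinaryTree Unit, fc 3 (cont (l1 △ C)) = fc 3 (cont C) := by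
    intro C
    rw [cont_node, fc_add, g1, zero_add]
  have k1 : 3 ≤ ht (app R l1) := by rw [ht_app]; omega
  have k2 : 3 ≤ ht (.nil △ R) := by rw [ht_node]; omega
  have k3 : 3 ≤ ht (.nil △ S) := by rw [ht_node]; omega
  have k4 : 3 ≤ ht (R △ .nil) := by rw [ht_node]; omega
  have k5 : 3 ≤ ht (S △ B) := by rw [ht_node]; omega
  have kR : 3 ≤ ht R := by omega
  have kS : 3 ≤ ht S := by omega
  have kB : fc 3 (cont B) = 0 := by
    rcases h.htB with rfl | h1
    · exact c0
    · exact h1.b3
  rcases h.htB with hB | hA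
  · left
    subst hB
    have k6 : 3 ≤ ht (app S l1) := by rw [ht_app]; omega
    interval_cases i <;>
      simp only [H1.W, app, ca, cl, cl1, cn _ _ k1, cn _ _ k2, cn _ _ k3, cn _ _ k4, cn _ _ k5, cn _ _ kR, cn _ _ kS,
        cn _ _ k6, c0, r3, s3, kB]
  · interval_cases i <;>
      first
        | (left; simp only [H1.W, app, ca, cl, cl1, cn _ _ k1, cn _ _ k2, cn _ _ k3, cn _ _ k4, cn _ _ k5,
            cn _ _ kR, cn _ _ kS, c0, r3, s3, kB]; done)
        | exact Or.inr ⟨by simp, hA⟩

/-- at most one part at least 4 -/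
theorem HD.four (h : HD n R B S) {i : ℕ} (hi : i < 20) : fc 4 (cont (H1.W R .nil B S i)) ≤ 1 := by
  rcases h.one3 hi with h1 | ⟨h1, hA⟩
  · have := fc_mono (show 3 ≤ 4 by norm_num) (cont (H1.W R .nil B S i))
    omega
  · obtain ⟨t, _, hcB⟩ := hA.csB
    obtain ⟨b, hcS⟩ := hA.contS
    have hn := h.hn
    have e1 : raise (cont (app B l1)) = {3} + Multiset.replicate t 2 + {1} + {1} := by
      rw [cont_app, hcB]
      have e2 : cont l1 = {1} := rfl
      have e3 : (Multiset.replicate (t + 1) 2 + {1} + cont l1 : Multiset ℕ) =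
          {2} + (Multiset.replicate t 2 + {1} + {1}) := by
        rw [e2, Multiset.replicate_succ, ← Multiset.singleton_add]
        abel
      rw [e3, raise_gen (s := 2)]
      · abel
      · intro x hx
        rw [Multiset.mem_add, Multiset.mem_add, Multiset.mem_singleton] at hx
        rcases hx with (hx | hx) | hx
        · rw [Multiset.eq_of_mem_replicate hx]
        · omega
        · omega
    have e2 : raise (cont B) = {3} + Multiset.replicate t 2 + {1} := by
      have e3 : cont B = {2} + (Multiset.replicate t 2 + {1}) := by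
        rw [hcB, Multiset.replicate_succ, ← Multiset.singleton_add]
        abel
      rw [e3, raise_gen (s := 2)]
      · abel
      · intro x hx
        rw [Multiset.mem_add, Multiset.mem_singleton] at hx
        rcases hx with hx | hx
        · rw [Multiset.eq_of_mem_replicate hx]
        · omega
    have f3 : fc 4 ({3} : Multiset ℕ) = 0 := by rfl
    have f1 : fc 4 ({1} : Multiset ℕ) = 0 := by rfl
    have f0 : fc 4 (cont (BinaryTree.nil : BinaryTree Unit)) = 0 := rfl
    have fs : ∀ s, fc 4 ({s} : Multiset ℕ) ≤ 1 := by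
      intro s
      rw [fc_single]
      split_ifs <;> omega
    have fr : ∀ a, fc 4 (Multiset.replicate a 2) = 0 := fun a => fc_rep (by norm_num) a
    have g0 : raise (cont (BinaryTree.nil : BinaryTree Unit)) = {1} := by rfl
    rcases h1 with rfl | rfl | rfl | rfl
    · change fc 4 (cont (app S (app B l1 △ .nil))) ≤ 1
      rw [cont_app, cont_node, e1, hcS]
      simp only [fc_add, f3, f1, f0, fr]
      have := fs (n + 2)
      omega
    · change fc 4 (cont (app S (B △ l1))) ≤ 1
      rw [cont_app, cont_node, e2, hcS]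
      have : cont l1 = {1} := rfl
      rw [this]
      simp only [fc_add, f3, f1, f0, fr]
      have := fs (n + 2)
      omega
    · change fc 4 (cont (.nil △ app S (B △ .nil))) ≤ 1
      rw [cont_node, cont_app, cont_node, e2, hcS, g0]
      simp only [fc_add, f3, f1, f0, fr]
      have := fs (n + 2)
      omega
    · change fc 4 (cont (app S (B △ .nil) △ .nil)) ≤ 1
      rw [cont_node, cont_app, cont_node, e2, hcS]
      have e3 : ({n + 2} + Multiset.replicate b 2 + ({3} + Multiset.replicate t 2 + {1} +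
          cont (BinaryTree.nil : BinaryTree Unit)) : Multiset ℕ) =
          {n + 2} + (Multiset.replicate b 2 + {3} + Multiset.replicate t 2 + {1}) := by
        rw [cont_nil]
        abel
      rw [e3, raise_gen (s := n + 2)]
      · simp only [fc_add, f3, f1, f0, fr]
        have := fs (n + 2 + 1)
        omega
      · intro x hx
        simp only [Multiset.mem_add, Multiset.mem_singleton] at hx
        rcases hx with ((hx | hx) | hx) | hx
        · rw [Multiset.eq_of_mem_replicate hx]
          omega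
        · omega
        · rw [Multiset.eq_of_mem_replicate hx]
          omega
        · omega

end L1C

end Pool.OddHC
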